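import Pool.Agent.N594.NT.Stm
import Pool.Agent.N594.CT.Norm

/-!
# Norms of the degrees of pairs: statements of the last parts
-/

set_option autoImplicit false

open Finset
open scoped Classical

namespace Pool.Agent.N594.NT

open Pool.Agent.TH200.LP Pool.Agent.N594.CT Pool.Agent.N442.ES

/-- NT/UP: the upper bound for families of sets. -/
def S_UP : Prop := S_MAIN → ∀ d k : ℕ, 1 ≤ d → 2 ≤ k → ∃ p₀ : ℝ, 1 ≤ p₀ ∧ ∀ p : ℝ, p₀ ≤ p →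
  ∀ ε : ℝ, 0 < ε → ∃ N : ℕ, ∀ n : ℕ, N ≤ n → ∀ G : Finset (Finset (Fin n)),
  (∀ e ∈ G, e.card = d + 2) → KFree (d + 2) (k * (d + 1) + 1) G →
  nsum 2 (d + 2) p G ≤ (phi d k p + ε) * (n.choose 2 : ℝ)

/-- NT/LO: Turán's construction. -/
def S_LO : Prop := ∀ d k : ℕ, 1 ≤ d → 1 ≤ k → ∀ p : ℝ, 1 ≤ p → ∀ ε : ℝ, 0 < ε →
  ∃ N : ℕ, ∀ n : ℕ, N ≤ n →
  (phi d k p - ε) * (n.choose 2 : ℝ) ≤ nsum 2 (d + 2) p (TC (d + 2) (cm k : Fin n → ℕ))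

/-- NT/NEG: Turán's construction is not optimal for large `m`. -/
def S_NEG : Prop := ∀ s k : ℕ, 2 ≤ s → 1 ≤ k → ∃ c : ℝ, 0 < c ∧ ∃ N : ℕ, ∀ n : ℕ, N ≤ n →
  ∃ G : Finset (Finset (Fin n)), (∀ e ∈ G, e.card = s) ∧
    (∀ m q : ℕ, (k * (s - 1) + 1) * (q - 1) < (s - 1) * m → Local m q G) ∧
    (1 - 1 / (k : ℝ) ^ (s - 1) + c) * (n.choose s : ℝ) ≤ (G.card : ℝ)

end Pool.Agent.N594.NT
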