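import Pool.Agent.N594.NT.Asm2
import Pool.Agent.N594.NT.Stm2
import Pool.Agent.N498.NT.P
import Pool.Agent.N265.NT.FK
import Pool.Agent.N624.NT.NB
import Pool.Agent.N901.NT.DF
import Pool.Agent.N674.NT.VH
import Pool.Agent.N286.NT.MC
import Pool.Agent.N373.NT.OPT
import Pool.Agent.N300.NT.CAL
import Pool.Agent.N225.NT.UP
import Pool.Agent.N704.NT.LO

/-!
# Norms of the degrees of pairs: the theorem
-/

set_option autoImplicit false

open Finset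
open scoped Classical

namespace Pool.Agent.N594.NT

open Pool.Agent.N594.CT Pool.Agent.N442.ES

/-- **The theorem for averages.** -/
theorem all : S_MAIN :=
  main (Pool.Agent.N265.NT.FK.main Pool.Agent.N498.NT.P.main0)
    (Pool.Agent.N624.NT.NB.main Pool.Agent.N498.NT.P.main0 Pool.Agent.N498.NT.P.main1)
    (Pool.Agent.N901.NT.DF.main Pool.Agent.N498.NT.P.main0)
    (Pool.Agent.N674.NT.VH.main Pool.Agent.N498.NT.P.main0 Pool.Agent.N498.NT.P.main1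
      Pool.Agent.N498.NT.P.main2)
    Pool.Agent.N286.NT.MC.main Pool.Agent.N373.NT.OPT.main Pool.Agent.N300.NT.CAL.main

/-- **The upper bound for families of sets.** -/
theorem upper {d k : ℕ} (hd : 1 ≤ d) (hk : 2 ≤ k) : ∃ p₀ : ℝ, 1 ≤ p₀ ∧ ∀ p : ℝ, p₀ ≤ p →
    ∀ ε : ℝ, 0 < ε → ∃ N : ℕ, ∀ n : ℕ, N ≤ n → ∀ G : Finset (Finset (Fin n)),
    (∀ e ∈ G, e.card = d + 2) → KFree (d + 2) (k * (d + 1) + 1) G →
    nsum 2 (d + 2) p G ≤ (phi d k p + ε) * (n.choose 2 : ℝ) :=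
  Pool.Agent.N225.NT.UP.main all d k hd hk

/-- **The lower bound.** -/
theorem lower {d k : ℕ} (hd : 1 ≤ d) (hk : 1 ≤ k) {p : ℝ} (hp : 1 ≤ p) {ε : ℝ} (hε : 0 < ε) :
    ∃ N : ℕ, ∀ n : ℕ, N ≤ n →
    (phi d k p - ε) * (n.choose 2 : ℝ) ≤ nsum 2 (d + 2) p (TC (d + 2) (cm k : Fin n → ℕ)) :=
  Pool.Agent.N704.NT.LO.main d k hd hk p hp ε hε

end Pool.Agent.N594.NT
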