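import Pool.Agent.N594.NT.Asm4
import Pool.Agent.N594.NT.All
import Pool.Agent.N38.NT.NEG
import Pool.Agent.N7.NT.Q
import Pool.Agent.N252.NT.XDF
import Pool.Agent.N644.NT.XVH
import Pool.Agent.N655.NT.LAM
import Pool.Agent.N704.NT.XOPT
import Pool.Agent.N135.NT.REL
import Pool.Agent.N94.NT.TPV
import Pool.Agent.N249.NT.EQ

/-!
# Norms of the degrees of pairs: the exact theorem
-/

set_option autoImplicit false

open Finset
open scoped Classical

namespace Pool.Agent.N594.NT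

/-- **The exact theorem.** -/
theorem exact_all : S_EXACT :=
  main2 (Pool.Agent.N265.NT.FK.main Pool.Agent.N498.NT.P.main0)
    (Pool.Agent.N624.NT.NB.main Pool.Agent.N498.NT.P.main0 Pool.Agent.N498.NT.P.main1)
    (Pool.Agent.N252.NT.XDF.main Pool.Agent.N7.NT.Q.main0)
    (Pool.Agent.N644.NT.XVH.main Pool.Agent.N7.NT.Q.main0 Pool.Agent.N7.NT.Q.main1
      Pool.Agent.N7.NT.Q.main2)
    Pool.Agent.N286.NT.MC.main Pool.Agent.N704.NT.XOPT.main Pool.Agent.N300.NT.CAL.main
    Pool.Agent.N655.NT.LAM.main Pool.Agent.N135.NT.REL.main Pool.Agent.N94.NT.TPV.main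
    Pool.Agent.N249.NT.EQ.main

end Pool.Agent.N594.NT
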