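import Pool.Agent.N594.NT.Stm3

/-!
# The number of edges and the degrees of pairs: statements
-/

set_option autoImplicit false

open Finset
open scoped Classical

namespace Pool.Agent.N594.NT

open Pool.Agent.TH200.LP Pool.Agent.N594.CT Pool.Agent.N442.ES

/-- NT/GAP: the density and the pairs with degree in the gap. -/
def S_GAP : Prop := ∀ d k : ℕ, 1 ≤ d → 2 ≤ k → ∃ ε : ℝ, 0 < ε ∧ ε < 1 ∧
  ∀ (V : Type) [Fintype V] [Nonempty V] (H : Finset V → Prop), Un d H → Fr d k H →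
  (av fun x : V => av fun y : V => cdg d H x y) ≤ 1 - 1 / (k : ℝ) ^ (d + 1) +
    av fun x : V => av fun y : V =>
      ind (1 - 1 / (k : ℝ) ^ d < cdg d H x y ∧ cdg d H x y < 1 - ε)

/-- NT/GF: the same for families of sets. -/
def S_GF : Prop := S_GAP → ∀ d k : ℕ, 1 ≤ d → 2 ≤ k → ∃ ε : ℝ, 0 < ε ∧ ∀ δ : ℝ, 0 < δ →
  ∃ η : ℝ, 0 < η ∧ ∃ N : ℕ, ∀ n : ℕ, N ≤ n → ∀ G : Finset (Finset (Fin n)),
  (∀ e ∈ G, e.card = d + 2) → KFree (d + 2) (k * (d + 1) + 1) G →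
  ((((univ : Finset (Fin n)).powersetCard 2).filter fun X =>
    (1 - 1 / (k : ℝ) ^ d) * ((n - 2).choose d : ℝ) < (degr G X : ℝ) ∧
      (degr G X : ℝ) < (1 - ε) * ((n - 2).choose d : ℝ)).card : ℝ) ≤ η * (n.choose 2 : ℝ) →
  (G.card : ℝ) ≤ (1 - 1 / (k : ℝ) ^ (d + 1) + δ) * (n.choose (d + 2) : ℝ)

end Pool.Agent.N594.NT
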