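import Pool.Agent.N594.NT.Asm4
import Pool.Agent.N594.NT.Stm4

/-!
# The number of edges and the degrees of pairs
-/

set_option autoImplicit false
set_option linter.unusedSectionVars false

open Finset
open scoped Classical

namespace Pool.Agent.N594.NT

open Pool.Agent.TH200.LP

section
variable {V : Type} [Fintype V] [Nonempty V]

/-- few heavy pairs inside the parts -/
theorem heavy1 {d k : ℕ} {H : Finset V → Prop} (π : V → Fin k) {ε c2 cV : ℝ}
    (hεV : ε ≤ cV) (hc2V : 2 * c2 ≤ cV)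
    (hvh : ∀ x y : V, π x = π y → 1 - cV ≤ cdg d H x y → cV ≤ rs d H π x + rs d H π y)
    (hdeg : ∀ x : V, (av fun y : V => ind (π x = π y ∧ Gr d ε H x y)) ≤ c2 / 16) :
    Bx (Gr d ε H) π ≤ c2 / 8 * av fun x : V => ind (c2 ≤ rs d H π x) := by
  have hpt : ∀ x y : V, ind (π x = π y ∧ Gr d ε H x y) ≤
      ind (c2 ≤ rs d H π x) * ind (π x = π y ∧ Gr d ε H x y) +
      ind (c2 ≤ rs d H π y) * ind (π x = π y ∧ Gr d ε H x y) := by
    intro x y
    have n1 := ind_nonneg (c2 ≤ rs d H π x)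
    have n2 := ind_nonneg (c2 ≤ rs d H π y)
    by_cases h : π x = π y ∧ Gr d ε H x y
    · rw [ind_true h, mul_one, mul_one]
      have h2 : 1 - ε ≤ cdg d H x y := h.2
      have h1 := hvh x y h.1 (by linarith)
      by_cases h3 : c2 ≤ rs d H π x
      · rw [ind_true h3]; linarith
      · have h4 : c2 ≤ rs d H π y := by
          push Not at h3
          linarith
        rw [ind_true h4]; linarith
    · rw [ind_false h]; norm_num
  have h := av_mono fun x => av_mono fun y => hpt x y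
  simp only [av_add] at h
  have h1 : (av fun x : V => av fun y : V =>
      ind (c2 ≤ rs d H π y) * ind (π x = π y ∧ Gr d ε H x y)) =
      av fun x : V => av fun y : V =>
        ind (c2 ≤ rs d H π x) * ind (π x = π y ∧ Gr d ε H x y) := by
    rw [av_comm]
    congr 1
    funext x
    congr 1
    funext y
    congr 1
    exact ind_congr ⟨fun h => ⟨h.1.symm, Gr_symm _ _ h.2⟩, fun h => ⟨h.1.symm, Gr_symm _ _ h.2⟩⟩
  rw [h1] at h
  have h2 : (av fun x : V => av fun y : V =>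
      ind (c2 ≤ rs d H π x) * ind (π x = π y ∧ Gr d ε H x y)) ≤
      av fun x : V => ind (c2 ≤ rs d H π x) * (c2 / 16) := by
    refine av_mono fun x => ?_
    rw [av_mul_left]
    exact mul_le_mul_of_nonneg_left (hdeg x) (ind_nonneg _)
  rw [av_mul_right] at h2
  have h3 : Bx (Gr d ε H) π = av fun x : V => av fun y : V => ind (π x = π y ∧ Gr d ε H x y) := rfl
  rw [h3]
  linarith

/-- the case of few pairs of almost full degree -/
theorem gap_few {d k : ℕ} {H : Finset V → Prop} {ε : ℝ} (hk : 2 ≤ k)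
    (hed : ed (Gr d ε H) ≤ 1 - 1 / (k : ℝ)) :
    (av fun x : V => av fun y : V => cdg d H x y) ≤ 1 - 1 / (k : ℝ) ^ (d + 1) +
      av fun x : V => av fun y : V =>
        ind (1 - 1 / (k : ℝ) ^ d < cdg d H x y ∧ cdg d H x y < 1 - ε) := by
  have hkR : (0 : ℝ) < k := by exact_mod_cast (by omega : 0 < k)
  have hkR1 : (1 : ℝ) ≤ k := by exact_mod_cast (by omega : 1 ≤ k)
  have hkd : (0 : ℝ) < 1 / (k : ℝ) ^ d := by positivity
  have hkd1 : 1 / (k : ℝ) ^ d ≤ 1 := by
    rw [div_le_one (by positivity)]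
    exact one_le_pow₀ hkR1
  have hpt : ∀ x y : V, cdg d H x y ≤ ((1 - 1 / (k : ℝ) ^ d) + 1 / (k : ℝ) ^ d *
      ind (Gr d ε H x y)) + ind (1 - 1 / (k : ℝ) ^ d < cdg d H x y ∧ cdg d H x y < 1 - ε) := by
    intro x y
    have n0 := ind_nonneg (1 - 1 / (k : ℝ) ^ d < cdg d H x y ∧ cdg d H x y < 1 - ε)
    have n1 := cdg_le_one (d := d) (H := H) x y
    by_cases hg : Gr d ε H x y
    · rw [ind_true hg]; linarith
    · rw [ind_false hg]
      unfold Gr at hg
      push Not at hg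
      by_cases h : 1 - 1 / (k : ℝ) ^ d < cdg d H x y
      · rw [ind_true ⟨h, hg⟩]; linarith
      · push Not at h
        linarith
  have h := av_mono fun x => av_mono fun y => hpt x y
  simp only [av_add, av_mul_left, av_const] at h
  have h2 : (av fun x : V => av fun y : V => ind (Gr d ε H x y)) = ed (Gr d ε H) := rfl
  rw [h2] at h
  have h3 : 1 / (k : ℝ) ^ d * ed (Gr d ε H) ≤ 1 / (k : ℝ) ^ d * (1 - 1 / (k : ℝ)) :=
    mul_le_mul_of_nonneg_left hed hkd.le
  have h4 : 1 / (k : ℝ) ^ d * (1 - 1 / (k : ℝ)) = 1 / (k : ℝ) ^ d - 1 / (k : ℝ) ^ (d + 1) := by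
    rw [pow_succ]
    field_simp
  linarith

/-- the case of a partition with a small loss -/
theorem gap_part {d k : ℕ} {H : Finset V → Prop} {ε c2 : ℝ} (hk : 2 ≤ k) (hc20 : 0 < c2)
    (π : V → Fin k)
    (hB : Bx (Gr d ε H) π ≤ c2 / 8 * av fun x : V => ind (c2 ≤ rs d H π x)) :
    (av fun x : V => av fun y : V => cdg d H x y) ≤ 1 - 1 / (k : ℝ) ^ (d + 1) +
      av fun x : V => av fun y : V =>
        ind (1 - 1 / (k : ℝ) ^ d < cdg d H x y ∧ cdg d H x y < 1 - ε) := by
  have hkR : (0 : ℝ) < k := by exact_mod_cast (by omega : 0 < k)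
  have hkR1 : (1 : ℝ) ≤ k := by exact_mod_cast (by omega : 1 ≤ k)
  have hkd : (0 : ℝ) < 1 / (k : ℝ) ^ d := by positivity
  have hkd1 : 1 / (k : ℝ) ^ d ≤ 1 := by
    rw [div_le_one (by positivity)]
    exact one_le_pow₀ hkR1
  have hls : c2 * (av fun x : V => ind (c2 ≤ rs d H π x)) ≤ ls d H π := by
    rw [← av_mul_left]
    refine av_mono fun x => ?_
    by_cases h : c2 ≤ rs d H π x
    · rw [ind_true h, mul_one]; exact h
    · rw [ind_false h, mul_zero]
      exact av_nonneg fun y => mul_nonneg (ind_nonneg _) (by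
        have := cdg_le_one (d := d) (H := H) x y
        linarith)
  have hρ : 0 ≤ av fun x : V => ind (c2 ≤ rs d H π x) := av_nonneg fun _ => ind_nonneg _
  have hBx0 := Bx_nonneg (Gr d ε H) π
  have hBls : 1 / (k : ℝ) ^ d * Bx (Gr d ε H) π ≤ ls d H π := by
    have h1 : 1 / (k : ℝ) ^ d * Bx (Gr d ε H) π ≤ Bx (Gr d ε H) π :=
      mul_le_of_le_one_left hBx0 hkd1
    nlinarith
  have hpt : ∀ x y : V, cdg d H x y ≤ ((1 - ind (π x = π y) * (1 / (k : ℝ) ^ d)) -
      ind (π x ≠ π y) * (1 - cdg d H x y)) + (1 / (k : ℝ) ^ d *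
      ind (π x = π y ∧ Gr d ε H x y) +
      ind (1 - 1 / (k : ℝ) ^ d < cdg d H x y ∧ cdg d H x y < 1 - ε)) := by
    intro x y
    have n0 := ind_nonneg (1 - 1 / (k : ℝ) ^ d < cdg d H x y ∧ cdg d H x y < 1 - ε)
    have n1 := cdg_le_one (d := d) (H := H) x y
    by_cases hπ : π x = π y
    · rw [ind_true hπ, ind_false (P := π x ≠ π y) (fun h => h hπ)]
      by_cases hg : Gr d ε H x y
      · rw [ind_true (P := π x = π y ∧ Gr d ε H x y) ⟨hπ, hg⟩]; linarith
      · rw [ind_false (P := π x = π y ∧ Gr d ε H x y) (fun h => hg h.2)]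
        unfold Gr at hg
        push Not at hg
        by_cases h : 1 - 1 / (k : ℝ) ^ d < cdg d H x y
        · rw [ind_true ⟨h, hg⟩]; linarith
        · push Not at h
          linarith
    · rw [ind_false hπ, ind_true (P := π x ≠ π y) hπ,
        ind_false (P := π x = π y ∧ Gr d ε H x y) (fun h => hπ h.1)]
      linarith
  have h := av_mono fun x => av_mono fun y => hpt x y
  simp only [av_add, av_sub, av_mul_left (1 / (k : ℝ) ^ d), av_const] at h
  have e1 : (av fun x : V => av fun y : V => ind (π x = π y) * (1 / (k : ℝ) ^ d)) =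
      ∑ j, sz π j ^ 2 * (1 / (k : ℝ) ^ d) := same_av π fun _ => 1 / (k : ℝ) ^ d
  have e2 : (av fun x : V => av fun y : V => ind (π x ≠ π y) * (1 - cdg d H x y)) =
      ls d H π := rfl
  have e3 : (av fun x : V => av fun y : V => ind (π x = π y ∧ Gr d ε H x y)) =
      Bx (Gr d ε H) π := rfl
  rw [e1, e2, e3, ← sum_mul] at h
  have hvar := var_sz π (by omega : 0 < k)
  have hvar0 : 0 ≤ ∑ j, (sz π j - 1 / (k : ℝ)) ^ 2 := sum_nonneg fun _ _ => sq_nonneg _
  have h5 : 1 / (k : ℝ) * (1 / (k : ℝ) ^ d) ≤ (∑ j, sz π j ^ 2) * (1 / (k : ℝ) ^ d) :=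
    mul_le_mul_of_nonneg_right (by linarith) hkd.le
  have h6 : 1 / (k : ℝ) * (1 / (k : ℝ) ^ d) = 1 / (k : ℝ) ^ (d + 1) := by
    rw [pow_succ]
    field_simp
  linarith

end

/-- **The density and the pairs with degree in the gap.** -/
theorem gap (hFK : S_FK) (hNB : S_NB) (hVH : S_VH) (hMC : S_MC) : S_GAP := by
  intro d k hd hk
  have hk1 : 1 ≤ k := by omega
  have hkR2 : (2 : ℝ) ≤ k := by exact_mod_cast hk
  obtain ⟨C, hC, hFK⟩ := hFK d k hd hk1
  obtain ⟨cV, hcV, hVH⟩ := hVH d k hd hk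
  obtain ⟨c2, hc2⟩ : ∃ c2 : ℝ, c2 = cV / 2 := ⟨_, rfl⟩
  have hc20 : 0 < c2 := by rw [hc2]; positivity
  obtain ⟨η, hη, hNB⟩ := hNB d k hd hk1 (c2 / 16) (by positivity)
  have hc00 := c0_pos hk
  have hK0 := KK_pos hk
  obtain ⟨M, hM⟩ : ∃ M : ℝ, M = min η (min cV (1 / (4 * (k : ℝ) ^ 2))) := ⟨_, rfl⟩
  have hM0 : 0 < M := by
    rw [hM]
    exact lt_min hη (lt_min hcV (by positivity))
  have hM1 : M ≤ η := by rw [hM]; exact min_le_left _ _
  have hM3 : M ≤ cV := by
    rw [hM]; exact (min_le_right _ _).trans (min_le_left _ _)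
  have hM4 : M ≤ 1 / (4 * (k : ℝ) ^ 2) := by
    rw [hM]; exact (min_le_right _ _).trans (min_le_right _ _)
  clear hM
  have hk4 : 1 / (4 * (k : ℝ) ^ 2) ≤ 1 / 16 :=
    one_div_le_one_div_of_le (by norm_num) (by nlinarith)
  obtain ⟨e1, he1⟩ : ∃ e1 : ℝ, e1 = M / (KK k + 2) := ⟨_, rfl⟩
  have he10 : 0 < e1 := by rw [he1]; positivity
  have he1K : (KK k + 2) * e1 = M := by rw [he1]; field_simp
  clear he1
  have he1M : e1 ≤ M := by
    rw [← he1K]
    exact le_mul_of_one_le_left he10.le (by linarith)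
  have he1s : e1 ≤ 1 / (2 * (k : ℝ) ^ 2) := by
    have : 1 / (4 * (k : ℝ) ^ 2) ≤ 1 / (2 * (k : ℝ) ^ 2) :=
      one_div_le_one_div_of_le (by positivity) (by nlinarith)
    linarith
  obtain ⟨ε, hε⟩ : ∃ ε : ℝ, ε = min e1 (e1 * c0 k ^ (d + 1) / C) := ⟨_, rfl⟩
  have hε0 : 0 < ε := by rw [hε]; exact lt_min he10 (by positivity)
  have hεe : ε ≤ e1 := by rw [hε]; exact min_le_left _ _
  have hεC : C * ε ≤ e1 * c0 k ^ (d + 1) := by
    have h : ε ≤ e1 * c0 k ^ (d + 1) / C := by rw [hε]; exact min_le_right _ _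
    rw [le_div_iff₀ hC] at h
    linarith
  clear hε
  have hε1 : ε < 1 := by linarith
  refine ⟨ε, hε0, hε1, ?_⟩
  intro V _ _ H hU hF
  by_cases hed : ed (Gr d ε H) ≤ 1 - 1 / (k : ℝ)
  · exact gap_few hk hed
  · push Not at hed
    have hfk := hFK V H ε hε0.le hF
    obtain ⟨π, hBc, hsz, hπ2⟩ := struct2 hk hMC (Gr d ε H)
      (fun x y h => Gr_symm x y h) (by
        intro x hx
        unfold Gr at hx
        rw [cdg_self hU] at hx
        linarith) he10 he1s (by linarith) (by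
        intro ht
        have h1 : c0 k ^ d * t (Gr d ε H) (k + 1) ≤ c0 k ^ d * (e1 * c0 k) := by
          refine ((mul_le_mul_of_nonneg_right (pow_le_pow_left₀ hc00.le ht d)
            (t_nonneg _ _)).trans (hfk.trans hεC)).trans (le_of_eq ?_)
          ring
        exact le_of_mul_le_mul_left h1 (by positivity)) (by rw [he1K]; exact hM4)
    have hKe : (KK k + 1) * e1 = M - e1 := by rw [← he1K]; ring
    have hls : ls d H π ≤ M := by
      have h1 := ls_le (d := d) (H := H) π hε0.le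
      linarith
    have hvh := hVH V H π hU hF hsz (hls.trans hM3)
    have hdeg : ∀ x : V, (av fun y : V => ind (π x = π y ∧ Gr d ε H x y)) ≤ c2 / 16 := by
      intro x
      obtain ⟨j, hj⟩ := hNB V H π ε hε0.le (by linarith) hF (by linarith) x
      have h2 : (fun y : V => ind (π x = π y ∧ Gr d ε H x y)) =
          fun y : V => ind (π y = π x ∧ Gr d ε H x y) := by
        funext y
        exact ind_congr ⟨fun h => ⟨h.1.symm, h.2⟩, fun h => ⟨h.1.symm, h.2⟩⟩
      rw [h2]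
      exact (hπ2 x j).trans hj.le
    exact gap_part hk hc20 π (heavy1 π (by linarith) (by linarith) hvh hdeg)

end Pool.Agent.N594.NT
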