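import Pool.Agent.N594.NT.Stm

/-!
# Norms of the degrees of pairs: the theorem from its parts
-/

set_option autoImplicit false
set_option linter.unusedSectionVars false

open Finset
open scoped Classical

namespace Pool.Agent.N594.NT

open Pool.Agent.TH200.LP

section
variable {V : Type} [Fintype V] [Nonempty V] {d k : ℕ} {H : Finset V → Prop}

theorem cdg_nonneg (x y : V) : 0 ≤ cdg d H x y := av_nonneg fun _ => ind_nonneg _

theorem cdg_le_one (x y : V) : cdg d H x y ≤ 1 := av_le_one fun _ => ind_le_one _

theorem cdg_symm (x y : V) : cdg d H x y = cdg d H y x := by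
  unfold cdg
  congr 1
  funext z
  rw [Finset.insert_comm]

theorem cdg_self (hU : Un d H) (x : V) : cdg d H x x = 0 := by
  unfold cdg
  have : (fun z : Fin d → V => ind (H (insert x (insert x (univ.image z))))) = fun _ => 0 := by
    funext z
    refine ind_false fun h => ?_
    have h1 := hU _ h
    rw [insert_idem] at h1
    have h2 := card_insert_le x (univ.image z)
    have h3 : (univ.image z).card ≤ d := card_image_le.trans (by rw [card_univ, Fintype.card_fin])
    omega
  rw [this, av_const]

/-- the density of the edges inside the part of `x` which contain `x` and `y` -/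
noncomputable def bb (d : ℕ) (H : Finset V → Prop) (π : V → Fin k) (x y : V) : ℝ :=
  av fun z : Fin d → V => ind (H (insert x (insert y (univ.image z))) ∧ ∀ i, π (z i) = π x)

theorem bb_nonneg (π : V → Fin k) (x y : V) : 0 ≤ bb d H π x y := av_nonneg fun _ => ind_nonneg _

/-- the size of a part -/
noncomputable def sz (π : V → Fin k) (j : Fin k) : ℝ := av fun v : V => ind (π v = j)

theorem sz_nonneg (π : V → Fin k) (j : Fin k) : 0 ≤ sz π j := av_nonneg fun _ => ind_nonneg _

theorem sz_le_one (π : V → Fin k) (j : Fin k) : sz π j ≤ 1 := av_le_one fun _ => ind_le_one _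

theorem cdg_le_bb (π : V → Fin k) (x y : V) :
    cdg d H x y ≤ (1 - sz π (π x) ^ d) + bb d H π x y := by
  have h1 : ∀ z : Fin d → V, ind (H (insert x (insert y (univ.image z)))) ≤
      (1 - ind (∀ i, π (z i) = π x)) +
        ind (H (insert x (insert y (univ.image z))) ∧ ∀ i, π (z i) = π x) := by
    intro z
    rw [ind_and]
    rcases ind_cases (H (insert x (insert y (univ.image z)))) with h | h <;>
      rcases ind_cases (∀ i, π (z i) = π x) with h' | h' <;> rw [h, h'] <;> norm_num
  have h2 := av_mono h1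
  rw [av_add, av_sub, av_const] at h2
  have h3 : (av fun z : Fin d → V => ind (∀ i, π (z i) = π x)) = sz π (π x) ^ d := by
    have e : (fun z : Fin d → V => ind (∀ i, π (z i) = π x)) =
        fun z => ∏ i, ind (π (z i) = π x) := by
      funext z
      exact ind_forall_gen _
    rw [e, av_prodfun (fun (_ : Fin d) v => ind (π v = π x)), prod_const, card_univ,
      Fintype.card_fin]
    rfl
  rw [h3] at h2
  exact h2

theorem image_cons (x y : V) (z : Fin d → V) :
    univ.image (Fin.cons x (Fin.cons y z : Fin (d + 1) → V) : Fin (d + 2) → V) =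
      insert x (insert y (univ.image z)) := by
  ext v
  simp only [mem_image, mem_univ, true_and, mem_insert]
  constructor
  · rintro ⟨i, hi⟩
    rcases Fin.eq_zero_or_eq_succ i with rfl | ⟨j, rfl⟩
    · left; rw [← hi, Fin.cons_zero]
    · right
      rw [Fin.cons_succ] at hi
      rcases Fin.eq_zero_or_eq_succ j with rfl | ⟨l, rfl⟩
      · left; rw [← hi, Fin.cons_zero]
      · right
        rw [Fin.cons_succ] at hi
        exact ⟨l, hi⟩
  · rintro (h | h | ⟨l, hl⟩)
    · exact ⟨0, by rw [h, Fin.cons_zero]⟩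
    · exact ⟨Fin.succ 0, by rw [Fin.cons_succ, h, Fin.cons_zero]⟩
    · exact ⟨Fin.succ (Fin.succ l), by rw [Fin.cons_succ, Fin.cons_succ, hl]⟩

theorem ein_eq (π : V → Fin k) : ein d H π =
    av fun x : V => av fun y : V => ind (π x = π y) * bb d H π x y := by
  unfold ein
  rw [av_cons]
  congr 1
  funext x
  rw [av_cons]
  congr 1
  funext y
  unfold bb
  rw [← av_mul_left]
  congr 1
  funext z
  rw [image_cons, ← ind_and]
  refine ind_congr ?_
  constructor
  · rintro ⟨h1, h2⟩
    have h3 : π x = π y := by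
      have := h2 (Fin.succ 0)
      rw [Fin.cons_succ, Fin.cons_zero, Fin.cons_zero] at this
      exact this.symm
    refine ⟨h3, h1, fun i => ?_⟩
    have := h2 (Fin.succ (Fin.succ i))
    rwa [Fin.cons_succ, Fin.cons_succ, Fin.cons_zero] at this
  · rintro ⟨h1, h2, h3⟩
    refine ⟨h2, fun i => ?_⟩
    rcases Fin.eq_zero_or_eq_succ i with rfl | ⟨j, rfl⟩
    · rfl
    · rw [Fin.cons_succ, Fin.cons_zero]
      rcases Fin.eq_zero_or_eq_succ j with rfl | ⟨l, rfl⟩
      · rw [Fin.cons_zero]; exact h1.symm
      · rw [Fin.cons_succ]; exact h3 l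

theorem ind_eq_sum (π : V → Fin k) (x y : V) :
    ind (π x = π y) = ∑ j, ind (π x = j) * ind (π y = j) := by
  rw [sum_eq_single (π x)]
  · rw [ind_true rfl, one_mul]
    exact ind_congr eq_comm
  · intro j _ hj
    rw [ind_false (Ne.symm hj), zero_mul]
  · intro h; exact absurd (mem_univ _) h

theorem same_av (π : V → Fin k) (f : Fin k → ℝ) :
    (av fun x : V => av fun y : V => ind (π x = π y) * f (π x)) = ∑ j, sz π j ^ 2 * f j := by
  have : ∀ x y : V, ind (π x = π y) * f (π x) =
      ∑ j, (ind (π x = j) * f j) * ind (π y = j) := by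
    intro x y
    rw [sum_eq_single (π x)]
    · rw [ind_true (P := π x = π x) rfl, one_mul, mul_comm]
      congr 1
      exact ind_congr eq_comm
    · intro j _ hj
      rw [ind_false (Ne.symm hj)]
      ring
    · intro h; exact absurd (mem_univ _) h
  simp only [this, av_sum, av_mul_left, av_mul_right]
  refine sum_congr rfl fun j _ => ?_
  unfold sz
  ring

theorem sum_sz (π : V → Fin k) : ∑ j, sz π j = 1 := by
  unfold sz
  rw [← av_sum]
  have : ∀ v : V, ∑ j, ind (π v = j) = 1 := by
    intro v
    rw [sum_eq_single (π v)]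
    · exact ind_true rfl
    · intro j _ hj
      exact ind_false (Ne.symm hj)
    · intro h; exact absurd (mem_univ _) h
  simp only [this, av_const]

/-- the main inequality for a given partition -/
theorem core (hCAL : S_CAL) (π : V → Fin k) {p τ c2 : ℝ} (hp : 1 ≤ p) (hτ : 0 < τ)
    (hτ1 : τ < 1) (hc2 : 0 < c2)
    (hhalf : ∀ u : ℝ, c2 / 2 ≤ u → u ≤ 1 → (1 - u) ^ p ≤ 1 / 2)
    (hein : p * (1 - τ) ^ (p - 1) * ein d H π ≤ ls d H π / 2)
    (hBx : Bx (Gr d τ H) π ≤ c2 / 8 * av fun x : V => ind (c2 ≤ rs d H π x)) :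
    (av fun x : V => av fun y : V => cdg d H x y ^ p) ≤
      1 - ∑ j, sz π j ^ 2 + ∑ j, sz π j ^ 2 * (1 - sz π j ^ d) ^ p := by
  set L : ℝ := av fun x : V => av fun y : V => ind (π x ≠ π y) * (1 - cdg d H x y ^ p) with hL
  have hpow1 : ∀ x y : V, cdg d H x y ^ p ≤ 1 := fun x y =>
    Real.rpow_le_one (cdg_nonneg x y) (cdg_le_one x y) (by linarith)
  have hpow : ∀ x y : V, cdg d H x y ^ p ≤ cdg d H x y := by
    intro x y
    rcases (cdg_nonneg (d := d) (H := H) x y).eq_or_lt with h0 | h0
    · rw [← h0, Real.zero_rpow (by linarith)]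
    · have := Real.rpow_le_rpow_of_exponent_ge h0 (cdg_le_one x y) hp
      rwa [Real.rpow_one] at this
  -- (i)
  have hL1 : ls d H π ≤ L := by
    refine av_mono fun x => av_mono fun y => ?_
    exact mul_le_mul_of_nonneg_left (by linarith [hpow x y]) (ind_nonneg _)
  -- (ii)
  have hL2 : (c2 / 4) * (av fun x : V => ind (c2 ≤ rs d H π x)) ≤ L := by
    rw [← av_mul_left]
    refine av_mono fun x => ?_
    by_cases hx : c2 ≤ rs d H π x
    · rw [ind_true hx, mul_one]
      have h1 : rs d H π x ≤ (av fun y : V => ind (π x ≠ π y ∧ c2 / 2 ≤ 1 - cdg d H x y)) +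
          c2 / 2 := by
        have h2 : ∀ y : V, ind (π x ≠ π y) * (1 - cdg d H x y) ≤
            ind (π x ≠ π y ∧ c2 / 2 ≤ 1 - cdg d H x y) + c2 / 2 := by
          intro y
          have a1 := cdg_nonneg (d := d) (H := H) x y
          have a2 := cdg_le_one (d := d) (H := H) x y
          by_cases h3 : π x ≠ π y
          · by_cases h4 : c2 / 2 ≤ 1 - cdg d H x y
            · rw [ind_true h3, ind_true (P := π x ≠ π y ∧ c2 / 2 ≤ 1 - cdg d H x y) ⟨h3, h4⟩]
              linarith
            · rw [ind_true h3, ind_false (P := π x ≠ π y ∧ c2 / 2 ≤ 1 - cdg d H x y)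
                (fun h => h4 h.2)]
              push Not at h4
              linarith
          · rw [ind_false h3, zero_mul]
            have := ind_nonneg (π x ≠ π y ∧ c2 / 2 ≤ 1 - cdg d H x y)
            linarith
        have := av_mono h2
        rw [av_add, av_const] at this
        exact this
      have h3 : 1 / 2 * (av fun y : V => ind (π x ≠ π y ∧ c2 / 2 ≤ 1 - cdg d H x y)) ≤
          av fun y : V => ind (π x ≠ π y) * (1 - cdg d H x y ^ p) := by
        rw [← av_mul_left]
        refine av_mono fun y => ?_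
        by_cases h4 : π x ≠ π y ∧ c2 / 2 ≤ 1 - cdg d H x y
        · rw [ind_true h4, ind_true h4.1]
          have h5 := hhalf _ h4.2 (by linarith [cdg_nonneg (d := d) (H := H) x y])
          rw [sub_sub_cancel] at h5
          linarith
        · rw [ind_false h4, mul_zero]
          exact mul_nonneg (ind_nonneg _) (by linarith [hpow1 x y])
      linarith
    · rw [ind_false hx, mul_zero]
      exact av_nonneg fun y => mul_nonneg (ind_nonneg _) (by linarith [hpow1 x y])
  -- (iii)
  have hpt : ∀ x y : V, cdg d H x y ^ p ≤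
      (1 - ind (π x = π y) * 1 - ind (π x ≠ π y) * (1 - cdg d H x y ^ p)) +
      (ind (π x = π y) * (1 - sz π (π x) ^ d) ^ p +
        (p * (1 - τ) ^ (p - 1)) * (ind (π x = π y) * bb d H π x y) +
        ind (π x = π y ∧ Gr d τ H x y)) := by
    intro x y
    have n1 : (0 : ℝ) ≤ p * (1 - τ) ^ (p - 1) := mul_nonneg (by linarith)
      (Real.rpow_nonneg (by linarith) _)
    have n2 := bb_nonneg (d := d) (H := H) π x y
    have n3 : (0 : ℝ) ≤ 1 - sz π (π x) ^ d := by
      have := pow_le_one₀ (n := d) (sz_nonneg π (π x)) (sz_le_one π (π x))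
      linarith
    have n4 : (0 : ℝ) ≤ (1 - sz π (π x) ^ d) ^ p := Real.rpow_nonneg n3 _
    by_cases h : π x = π y
    · rw [ind_true h, ind_false (P := π x ≠ π y) (fun h' => h' h)]
      by_cases hg : Gr d τ H x y
      · rw [ind_true (P := π x = π y ∧ Gr d τ H x y) ⟨h, hg⟩]
        have := hpow1 x y
        have n5 := mul_nonneg n1 n2
        linarith
      · rw [ind_false (P := π x = π y ∧ Gr d τ H x y) (fun h' => hg h'.2)]
        have h1 : cdg d H x y ≤ 1 - τ := by
          unfold Gr at hg
          push Not at hg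
          exact hg.le
        have h2 := hCAL.1 _ _ _ τ p n3 n2 (cdg_nonneg x y) (cdg_le_bb π x y) h1 hτ hτ1 hp
        linarith
    · rw [ind_false h, ind_true (P := π x ≠ π y) h, ind_false (P := π x = π y ∧ Gr d τ H x y)
        (fun h' => h h'.1)]
      linarith
  have htot := av_mono fun x => av_mono fun y => hpt x y
  simp only [av_add, av_sub, av_const, av_mul_left (p * (1 - τ) ^ (p - 1))] at htot
  rw [← ein_eq] at htot
  have e1 : (av fun x : V => av fun y : V => ind (π x = π y) * 1) = ∑ j, sz π j ^ 2 * 1 :=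
    same_av π fun _ => 1
  have e2 : (av fun x : V => av fun y : V => ind (π x = π y) * (1 - sz π (π x) ^ d) ^ p) =
      ∑ j, sz π j ^ 2 * (1 - sz π j ^ d) ^ p := same_av π fun j => (1 - sz π j ^ d) ^ p
  rw [e1, e2] at htot
  have e3 : (av fun x : V => av fun y : V => ind (π x = π y ∧ Gr d τ H x y)) =
      Bx (Gr d τ H) π := rfl
  rw [e3, ← hL] at htot
  simp only [mul_one] at htot
  linarith

end

end Pool.Agent.N594.NT
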