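import Pool.Agent.N594.NT.Asm

/-!
# Norms of the degrees of pairs: the choice of the parameters
-/

set_option autoImplicit false
set_option linter.unusedSectionVars false

open Finset
open scoped Classical

namespace Pool.Agent.N594.NT

open Pool.Agent.TH200.LP

section
variable {V : Type} [Fintype V] [Nonempty V] {d k : ℕ} {H : Finset V → Prop}

theorem Gr_symm {ε : ℝ} (x y : V) (h : Gr d ε H x y) : Gr d ε H y x := by
  unfold Gr at *
  rwa [cdg_symm]

theorem ed_split (π : V → Fin k) (G : V → V → Prop) :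
    ed G + Bc G π ≤ 1 - ∑ j, sz π j ^ 2 + Bx G π := by
  have hpt : ∀ x y : V, ind (G x y) + ind (π x ≠ π y ∧ ¬ G x y) ≤
      (1 - ind (π x = π y) * 1) + ind (π x = π y ∧ G x y) := by
    intro x y
    by_cases h : π x = π y
    · rw [ind_false (P := π x ≠ π y ∧ ¬ G x y) (fun h' => h'.1 h), ind_true h]
      by_cases hg : G x y
      · rw [ind_true hg, ind_true (P := π x = π y ∧ G x y) ⟨h, hg⟩]; norm_num
      · rw [ind_false hg, ind_false (P := π x = π y ∧ G x y) (fun h' => hg h'.2)]; norm_num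
    · rw [ind_false h, ind_false (P := π x = π y ∧ G x y) (fun h' => h h'.1)]
      by_cases hg : G x y
      · rw [ind_true hg, ind_false (P := π x ≠ π y ∧ ¬ G x y) (fun h' => h'.2 hg)]; norm_num
      · rw [ind_false hg, ind_true (P := π x ≠ π y ∧ ¬ G x y) ⟨h, hg⟩]; norm_num
  have h := av_mono fun x => av_mono fun y => hpt x y
  simp only [av_add, av_sub, av_const] at h
  have e1 : (av fun x : V => av fun y : V => ind (π x = π y) * 1) = ∑ j, sz π j ^ 2 * 1 :=
    same_av π fun _ => 1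
  rw [e1] at h
  simp only [mul_one] at h
  exact h

theorem var_sz (π : V → Fin k) (hk : 0 < k) :
    ∑ j, (sz π j - 1 / (k : ℝ)) ^ 2 = ∑ j, sz π j ^ 2 - 1 / k := by
  have hk0 : (0 : ℝ) < k := by exact_mod_cast hk
  have : ∀ j, (sz π j - 1 / (k : ℝ)) ^ 2 = sz π j ^ 2 - 2 / k * sz π j + 1 / k ^ 2 := by
    intro j
    field_simp
    ring
  simp only [this, sum_add_distrib, sum_sub_distrib, ← mul_sum, sum_sz, sum_const, card_univ,
    Fintype.card_fin, nsmul_eq_mul]
  field_simp
  ring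

theorem ls_le (π : V → Fin k) {ε : ℝ} (hε : 0 ≤ ε) : ls d H π ≤ Bc (Gr d ε H) π + ε := by
  have hpt : ∀ x y : V, ind (π x ≠ π y) * (1 - cdg d H x y) ≤
      ind (π x ≠ π y ∧ ¬ Gr d ε H x y) + ε := by
    intro x y
    have a1 := cdg_nonneg (d := d) (H := H) x y
    by_cases h : π x ≠ π y
    · by_cases hg : Gr d ε H x y
      · rw [ind_true h]
        have := ind_nonneg (π x ≠ π y ∧ ¬ Gr d ε H x y)
        unfold Gr at hg
        linarith
      · rw [ind_true h, ind_true (P := π x ≠ π y ∧ ¬ Gr d ε H x y) ⟨h, hg⟩]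
        linarith
    · rw [ind_false h, zero_mul]
      have := ind_nonneg (π x ≠ π y ∧ ¬ Gr d ε H x y)
      linarith
  have h := av_mono fun x => av_mono fun y => hpt x y
  simp only [av_add, av_const] at h
  exact h

theorem cdg_pow_av {ε p : ℝ} (hp : 1 ≤ p) :
    (av fun x : V => av fun y : V => cdg d H x y ^ p) ≤ ed (Gr d ε H) + (1 - ε) ^ p ∨ 1 < ε := by
  by_cases hε : 1 < ε
  · exact Or.inr hε
  · left
    push Not at hε
    have hpt : ∀ x y : V, cdg d H x y ^ p ≤ ind (Gr d ε H x y) + (1 - ε) ^ p := by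
      intro x y
      have a0 : (0 : ℝ) ≤ (1 - ε) ^ p := Real.rpow_nonneg (by linarith) _
      by_cases hg : Gr d ε H x y
      · rw [ind_true hg]
        have := Real.rpow_le_one (cdg_nonneg (d := d) (H := H) x y) (cdg_le_one x y)
          (by linarith : (0 : ℝ) ≤ p)
        linarith
      · rw [ind_false hg]
        unfold Gr at hg
        push Not at hg
        have := Real.rpow_le_rpow (cdg_nonneg (d := d) (H := H) x y) hg.le
          (by linarith : (0 : ℝ) ≤ p)
        linarith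
    have h := av_mono fun x => av_mono fun y => hpt x y
    simp only [av_add, av_const] at h
    exact h

end

theorem phi_ge {d k : ℕ} (hk : 1 ≤ k) (p : ℝ) : 1 - 1 / (k : ℝ) ≤ phi d k p := by
  unfold phi
  have hk0 : (1 : ℝ) ≤ k := by exact_mod_cast hk
  have h1 : (0 : ℝ) ≤ 1 - 1 / (k : ℝ) ^ d := by
    have : 1 / (k : ℝ) ^ d ≤ 1 := by
      rw [div_le_one (by positivity)]
      exact one_le_pow₀ hk0
    linarith
  have h2 : 0 ≤ 1 / (k : ℝ) * (1 - 1 / (k : ℝ) ^ d) ^ p :=
    mul_nonneg (by positivity) (Real.rpow_nonneg h1 _)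
  linarith

/-- **The theorem from its parts.** -/
theorem main (hFK : S_FK) (hNB : S_NB) (hDF : S_DF) (hVH : S_VH) (hMC : S_MC) (hOPT : S_OPT)
    (hCAL : S_CAL) : S_MAIN := by
  intro d k hd hk
  obtain ⟨m, rfl⟩ : ∃ m, k = m + 1 := ⟨k - 1, by omega⟩
  set k := m + 1 with hkdef
  have hk1 : 1 ≤ k := by omega
  have hkR : (0 : ℝ) < k := by exact_mod_cast (by omega : 0 < k)
  have hkR2 : (2 : ℝ) ≤ k := by exact_mod_cast hk
  obtain ⟨C, hC, hFK⟩ := hFK d k hd hk1
  obtain ⟨cD, hcD, hDF⟩ := hDF d k hd hk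
  obtain ⟨cV, hcV, hVH⟩ := hVH d k hd hk
  obtain ⟨c2, hc2⟩ : ∃ c2 : ℝ, c2 = min cV 1 / 2 := ⟨_, rfl⟩
  have hc20 : 0 < c2 := by rw [hc2]; exact half_pos (lt_min hcV one_pos)
  have hc21 : c2 ≤ 1 / 2 := by
    rw [hc2]
    have := min_le_right cV 1
    linarith
  have hc2V : 2 * c2 ≤ cV := by
    rw [hc2]
    have := min_le_left cV 1
    linarith
  obtain ⟨η, hη, hNB⟩ := hNB d k hd hk1 (c2 / 16) (by positivity)
  set c0 : ℝ := (1 / (2 * (k : ℝ))) ^ (k - 1) with hc0
  have hc00 : 0 < c0 := by rw [hc0]; positivity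
  have hc01 : c0 ≤ 1 := by
    rw [hc0]
    refine pow_le_one₀ (by positivity) ?_
    rw [div_le_one (by positivity)]
    linarith
  obtain ⟨K, hK⟩ : ∃ K : ℝ, K = 3 * ((k : ℝ) + 2) * (k : ℝ) ^ 2 / c0 := ⟨_, rfl⟩
  have hK0 : 0 < K := by rw [hK]; positivity
  obtain ⟨M, hM⟩ : ∃ M : ℝ, M = min (min η cD) (min (min cV 1) (1 / (4 * (k : ℝ) ^ 2))) := ⟨_, rfl⟩
  have hM0 : 0 < M := by
    rw [hM]
    exact lt_min (lt_min hη hcD) (lt_min (lt_min hcV one_pos) (by positivity))
  have hM1 : M ≤ η := by rw [hM]; exact (min_le_left _ _).trans (min_le_left _ _)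
  have hM2 : M ≤ cD := by rw [hM]; exact (min_le_left _ _).trans (min_le_right _ _)
  have hM3 : M ≤ cV := by
    rw [hM]; exact (min_le_right _ _).trans ((min_le_left _ _).trans (min_le_left _ _))
  have hM4 : M ≤ 1 / (4 * (k : ℝ) ^ 2) := by
    rw [hM]; exact (min_le_right _ _).trans (min_le_right _ _)
  have hk4 : 1 / (4 * (k : ℝ) ^ 2) ≤ 1 / 16 := by
    refine one_div_le_one_div_of_le (by norm_num) ?_
    nlinarith
  obtain ⟨e1, he1⟩ : ∃ e1 : ℝ, e1 = M / (K + 2) := ⟨_, rfl⟩
  have he10 : 0 < e1 := by rw [he1]; positivity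
  have he1K : (K + 2) * e1 = M := by rw [he1]; field_simp
  have he1M : e1 ≤ M := by
    rw [← he1K]
    exact le_mul_of_one_le_left he10.le (by linarith)
  have he1s : e1 ≤ 1 / (2 * (k : ℝ) ^ 2) := by
    have : 1 / (4 * (k : ℝ) ^ 2) ≤ 1 / (2 * (k : ℝ) ^ 2) :=
      one_div_le_one_div_of_le (by positivity) (by nlinarith)
    linarith
  obtain ⟨ε, hε⟩ : ∃ ε : ℝ, ε = min e1 (e1 * c0 ^ (d + 1) / C) := ⟨_, rfl⟩
  have hε0 : 0 < ε := by rw [hε]; exact lt_min he10 (by positivity)
  have hεe : ε ≤ e1 := by rw [hε]; exact min_le_left _ _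
  have hεC : C * ε ≤ e1 * c0 ^ (d + 1) := by
    have h : ε ≤ e1 * c0 ^ (d + 1) / C := by rw [hε]; exact min_le_right _ _
    rw [le_div_iff₀ hC] at h
    linarith
  have hε1 : ε < 1 := by linarith
  -- the exponents
  obtain ⟨p1, hp1, hp1'⟩ := hCAL.2 (c2 / 2) (by positivity) (by linarith)
  obtain ⟨c', hc'⟩ : ∃ c' : ℝ, c' = min ε (cD / 2) := ⟨_, rfl⟩
  have hc'0 : 0 < c' := by rw [hc']; exact lt_min hε0 (by positivity)
  have hc'ε : c' ≤ ε := by rw [hc']; exact min_le_left _ _
  have hc'D : c' ≤ cD / 2 := by rw [hc']; exact min_le_right _ _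
  obtain ⟨p2, hp2, hp2'⟩ := hCAL.2 c' hc'0 (by linarith)
  obtain ⟨p3, hp3, hp3'⟩ := hOPT d k hd hk
  refine ⟨max p1 (max p2 p3), hp1.trans (le_max_left _ _), ?_⟩
  intro p hp V _ _ H hU hF
  obtain ⟨hhalf, -, -⟩ := hp1' p ((le_max_left _ _).trans hp)
  obtain ⟨-, hq2, hq3⟩ := hp2' p ((le_max_left _ _).trans ((le_max_right _ _).trans hp))
  have hopt := hp3' p ((le_max_right _ _).trans ((le_max_right _ _).trans hp))
  have hp0 : 1 ≤ p := hp1.trans ((le_max_left _ _).trans hp)
  set G := Gr d ε H with hG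
  have hGs : ∀ x y, G x y → G y x := fun x y h => Gr_symm x y h
  by_cases hed : ed G < 1 - 1 / (k : ℝ) - e1
  · -- few pairs of almost full degree
    rcases cdg_pow_av (d := d) (H := H) (ε := ε) hp0 with h | h
    · have h1 : (1 - ε) ^ p ≤ (1 - c') ^ p :=
        Real.rpow_le_rpow (by linarith) (by linarith) (by linarith)
      have h2 := phi_ge (d := d) hk1 p
      linarith
    · linarith
  · push Not at hed
    have hgm := graph_main hGs k hk (by
      have h1 : 1 / (2 * (k : ℝ) ^ 2) = 1 / (2 * (k : ℝ) ^ 2) := rfl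
      linarith)
    obtain ⟨ht, -, -, hQ⟩ := hgm
    rw [← hc0] at ht
    have ht0 : 0 < t G k := hc00.trans_le ht
    -- few complete graphs on `k + 1` vertices
    have hfk := hFK V H ε hε0.le hF
    rw [← hG] at hfk
    have htk : t G (k + 1) ≤ e1 * c0 := by
      have h1 : c0 ^ d * t G (k + 1) ≤ e1 * c0 ^ (d + 1) :=
        (mul_le_mul_of_nonneg_right (pow_le_pow_left₀ hc00.le ht d) (t_nonneg G _)).trans
          (hfk.trans hεC)
      have h2 : c0 ^ d * t G (k + 1) ≤ c0 ^ d * (e1 * c0) := by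
        refine h1.trans (le_of_eq ?_)
        ring
      exact le_of_mul_le_mul_left h2 (by positivity)
    have htk1 : t G (k + 1) ≤ e1 :=
      htk.trans (mul_le_of_le_one_right he10.le hc01)
    have hdiv : t G (k + 1) / (k * t G k) ≤ e1 := by
      rw [div_le_iff₀ (by positivity)]
      have h1 : c0 ≤ (k : ℝ) * t G k :=
        ht.trans (le_mul_of_one_le_left ht0.le (by linarith))
      exact htk.trans (mul_le_mul_of_nonneg_left h1 he10.le)
    have hQ1 : Q G k ≤ 2 * (k : ℝ) ^ 2 * e1 := by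
      refine hQ.trans ?_
      have h1 : (1 - 1 / (k : ℝ) - ed G) + t G (k + 1) / (k * t G k) ≤ 2 * e1 := by linarith
      have h2 : (0 : ℝ) ≤ (k : ℝ) * (k - 1) := mul_nonneg hkR.le (by linarith)
      have h3 : 0 ≤ (k : ℝ) * e1 := mul_nonneg hkR.le he10.le
      have h4 : (k : ℝ) * (k - 1) * (2 * e1) = 2 * (k : ℝ) ^ 2 * e1 - 2 * ((k : ℝ) * e1) := by ring
      calc (k : ℝ) * (k - 1) * ((1 - 1 / (k : ℝ) - ed G) + t G (k + 1) / (k * t G k))
          ≤ (k : ℝ) * (k - 1) * (2 * e1) := mul_le_mul_of_nonneg_left h1 h2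
        _ ≤ 2 * (k : ℝ) ^ 2 * e1 := by rw [h4]; linarith
    -- a good partition
    obtain ⟨π', hπ'⟩ := part_lemma hGs m
    have hB' : Bx G π' ≤ K * e1 := by
      have h1 : c0 * Bx G π' ≤ ((k : ℝ) + 2) * (3 * (k : ℝ) ^ 2 * e1) := by
        have a1 : c0 * Bx G π' ≤ t G (m + 1) * (Bc G π' + Bx G π') := by
          have b1 := Bc_nonneg G π'
          have b2 := Bx_nonneg G π'
          calc c0 * Bx G π' ≤ t G (m + 1) * Bx G π' := mul_le_mul_of_nonneg_right ht b2
            _ ≤ t G (m + 1) * (Bc G π' + Bx G π') :=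
              mul_le_mul_of_nonneg_left (by linarith) (t_nonneg G _)
        have a2 : ((m : ℝ) + 3) = (k : ℝ) + 2 := by rw [hkdef]; push_cast; ring
        have a3 : Q G (m + 1) + t G (m + 2) ≤ 3 * (k : ℝ) ^ 2 * e1 := by
          have b1 : Q G (m + 1) ≤ 2 * (k : ℝ) ^ 2 * e1 := hQ1
          have b2 : t G (m + 2) ≤ e1 := htk1
          have b3 : e1 ≤ (k : ℝ) ^ 2 * e1 :=
            le_mul_of_one_le_left he10.le (one_le_pow₀ (by linarith))
          have b4 : 3 * (k : ℝ) ^ 2 * e1 = 2 * (k : ℝ) ^ 2 * e1 + (k : ℝ) ^ 2 * e1 := by ring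
          rw [b4]
          exact add_le_add b1 (b2.trans b3)
        refine a1.trans (hπ'.trans ?_)
        rw [a2]
        exact mul_le_mul_of_nonneg_left a3 (by positivity)
      rw [hK, div_mul_eq_mul_div, le_div_iff₀ hc00]
      have h2 : ((k : ℝ) + 2) * (3 * (k : ℝ) ^ 2 * e1) = 3 * ((k : ℝ) + 2) * (k : ℝ) ^ 2 * e1 := by
        ring
      rw [← h2, mul_comm]
      exact h1
    obtain ⟨π, hπ1, hπ2⟩ := hMC k V G hk1 hGs (by
      intro x hx
      rw [hG] at hx
      unfold Gr at hx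
      rw [cdg_self hU] at hx
      linarith)
    have hBx : Bx G π ≤ K * e1 := (hπ1 π').trans hB'
    have hsplit := ed_split π G
    have hvar := var_sz π (by omega : 0 < k)
    have hvar0 : 0 ≤ ∑ j, (sz π j - 1 / (k : ℝ)) ^ 2 := sum_nonneg fun _ _ => sq_nonneg _
    have hBc : Bc G π ≤ (K + 1) * e1 := by linarith
    have hKe : (K + 1) * e1 = M - e1 := by rw [← he1K]; ring
    have hBcM : Bc G π ≤ M := by linarith
    have hls : ls d H π ≤ M := by
      have := ls_le (d := d) (H := H) π hε0.le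
      rw [← hG] at this
      linarith
    have hBc0 := Bc_nonneg G π
    have hsz : ∀ j, 1 / (2 * (k : ℝ)) ≤ sz π j := by
      intro j
      have h1 : (sz π j - 1 / (k : ℝ)) ^ 2 ≤ (1 / (2 * (k : ℝ))) ^ 2 := by
        have h2 : (sz π j - 1 / (k : ℝ)) ^ 2 ≤ ∑ j, (sz π j - 1 / (k : ℝ)) ^ 2 :=
          single_le_sum (f := fun j => (sz π j - 1 / (k : ℝ)) ^ 2)
            (fun _ _ => sq_nonneg _) (mem_univ j)
        have h3 : (1 / (2 * (k : ℝ))) ^ 2 = 1 / (4 * (k : ℝ) ^ 2) := by
          rw [div_pow, mul_pow]; norm_num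
        have h5 : K * e1 + e1 = M - e1 := by rw [← hKe]; ring
        rw [h3]
        linarith
      have h2 := abs_le_of_sq_le_sq h1 (by positivity)
      have h3 : 1 / (k : ℝ) = 2 * (1 / (2 * (k : ℝ))) := by field_simp
      have h4 := (abs_le.mp h2).1
      linarith
    -- the losses
    have hvh := hVH V H π hU hF hsz (hls.trans hM3)
    have hdf := hDF V H π hU hF hsz (hls.trans hM2)
    have hdeg : ∀ x : V, (av fun y : V => ind (π x = π y ∧ G x y)) ≤ c2 / 16 := by
      intro x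
      obtain ⟨j, hj⟩ := hNB V H π ε hε0.le (by linarith) hF (by rw [← hG]; linarith) x
      have h1 := hπ2 x j
      have h2 : (fun y : V => ind (π x = π y ∧ G x y)) = fun y : V => ind (π y = π x ∧ G x y) := by
        funext y
        exact ind_congr ⟨fun h => ⟨h.1.symm, h.2⟩, fun h => ⟨h.1.symm, h.2⟩⟩
      rw [h2]
      exact h1.trans hj.le
    have hBx2 : Bx G π ≤ c2 / 8 * av fun x : V => ind (c2 ≤ rs d H π x) := by
      have hpt : ∀ x y : V, ind (π x = π y ∧ G x y) ≤
          ind (c2 ≤ rs d H π x) * ind (π x = π y ∧ G x y) +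
          ind (c2 ≤ rs d H π y) * ind (π x = π y ∧ G x y) := by
        intro x y
        have n1 := ind_nonneg (c2 ≤ rs d H π x)
        have n2 := ind_nonneg (c2 ≤ rs d H π y)
        by_cases h : π x = π y ∧ G x y
        · rw [ind_true h, mul_one, mul_one]
          have h1 := hvh x y h.1 (by
            have h2 : 1 - ε ≤ cdg d H x y := h.2
            linarith)
          by_cases h3 : c2 ≤ rs d H π x
          · rw [ind_true h3]; linarith
          · have h4 : c2 ≤ rs d H π y := by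
              push Not at h3
              linarith
            rw [ind_true h4]; linarith
        · rw [ind_false h]; norm_num
      have h := av_mono fun x => av_mono fun y => hpt x y
      simp only [av_add] at h
      have h1 : (av fun x : V => av fun y : V =>
          ind (c2 ≤ rs d H π y) * ind (π x = π y ∧ G x y)) =
          av fun x : V => av fun y : V => ind (c2 ≤ rs d H π x) * ind (π x = π y ∧ G x y) := by
        rw [av_comm]
        congr 1
        funext x
        congr 1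
        funext y
        congr 1
        exact ind_congr ⟨fun h => ⟨h.1.symm, hGs _ _ h.2⟩, fun h => ⟨h.1.symm, hGs _ _ h.2⟩⟩
      rw [h1] at h
      have h2 : (av fun x : V => av fun y : V =>
          ind (c2 ≤ rs d H π x) * ind (π x = π y ∧ G x y)) ≤
          av fun x : V => ind (c2 ≤ rs d H π x) * (c2 / 16) := by
        refine av_mono fun x => ?_
        rw [av_mul_left]
        exact mul_le_mul_of_nonneg_left (hdeg x) (ind_nonneg _)
      rw [av_mul_right] at h2
      have h3 : Bx G π = av fun x : V => av fun y : V => ind (π x = π y ∧ G x y) := rfl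
      rw [h3]
      linarith
    have hein : p * (1 - ε) ^ (p - 1) * ein d H π ≤ ls d H π / 2 := by
      have h0 : 0 ≤ ein d H π := av_nonneg fun _ => ind_nonneg _
      have h1 : (1 - ε) ^ (p - 1) ≤ (1 - c') ^ (p - 1) :=
        Real.rpow_le_rpow (by linarith) (by linarith) (by linarith)
      have h2 : p * (1 - ε) ^ (p - 1) ≤ cD / 2 :=
        (mul_le_mul_of_nonneg_left h1 (by linarith)).trans (hq2.trans hc'D)
      calc p * (1 - ε) ^ (p - 1) * ein d H π ≤ cD / 2 * ein d H π :=
            mul_le_mul_of_nonneg_right h2 h0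
        _ ≤ ls d H π / 2 := by linarith
    refine (core hCAL π hp0 hε0 hε1 hc20 (fun u h1 h2 => hhalf u h1 h2) hein ?_).trans
      (hopt (sz π) hsz (sum_sz π))
    rw [← hG]
    exact hBx2

end Pool.Agent.N594.NT
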