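import Pool.Agent.N594.NT.Stm2

/-!
# Norms of the degrees of pairs: statements of the parts of the exact theorem
-/

set_option autoImplicit false

open Finset
open scoped Classical

namespace Pool.Agent.N594.NT

open Pool.Agent.TH200.LP Pool.Agent.N594.CT Pool.Agent.N442.ES

/-- The proportion of the sequences of `d` vertices which are different from each other and from `x`,
`y` and do not form an edge with `x` and `y`. -/
noncomputable def mdg (d : ℕ) {V : Type} [Fintype V] (H : Finset V → Prop) (x y : V) : ℝ :=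
  av fun z : Fin d → V =>
    ind (Function.Injective (Fin.cons x (Fin.cons y z : Fin (d + 1) → V) : Fin (d + 2) → V) ∧
      ¬ H (insert x (insert y (univ.image z))))

/-- The loss at the vertex `x`. -/
noncomputable def rsi (d : ℕ) {V κ : Type} [Fintype V] (H : Finset V → Prop) (π : V → κ) (x : V) : ℝ :=
  av fun y : V => ind (π x ≠ π y) * mdg d H x y

/-- The loss. -/
noncomputable def lsi (d : ℕ) {V κ : Type} [Fintype V] (H : Finset V → Prop) (π : V → κ) : ℝ :=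
  av fun x : V => rsi d H π x

/-- No complete subgraph on `k (d + 1) + 1` vertices. -/
def FrI (d k : ℕ) {V : Type} (H : Finset V → Prop) : Prop :=
  ∀ φ : Fin (k * (d + 1) + 1) → V, Function.Injective φ →
    ∃ J : Finset (Fin (k * (d + 1) + 1)), J.card = d + 2 ∧ ¬ H (J.image φ)

/-- NT/Q0 -/
def S_Q0 : Prop := ∀ (d : ℕ) (V : Type) [Fintype V] [Nonempty V] (H : Finset V → Prop)
  (ι : Type) [Fintype ι] (J : Finset ι) (i j : ι) (F : V → V → ℝ), (∀ x y, 0 ≤ F x y) →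
  i ∈ J → j ∈ J → i ≠ j → J.card = d + 2 →
  (av fun ω : ι → V => F (ω i) (ω j) * ind (Function.Injective ω ∧ ¬ H (J.image ω))) ≤
    av fun x : V => av fun y : V => F x y * mdg d H x y

/-- NT/Q1 -/
def S_Q1 : Prop := ∀ (d : ℕ) (V : Type) [Fintype V] [Nonempty V] (H : Finset V → Prop)
  (ι : Type) [Fintype ι] (J : Finset ι) (j : ι) (x : V) (F : V → ℝ), (∀ y, 0 ≤ F y) →
  j ∈ J → J.card = d + 1 →
  (av fun ω : ι → V => F (ω j) *
    ind ((Function.Injective ω ∧ ∀ p, ω p ≠ x) ∧ ¬ H (insert x (J.image ω)))) ≤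
    av fun y : V => F y * mdg d H x y

/-- NT/Q2 -/
def S_Q2 : Prop := ∀ (d : ℕ) (V : Type) [Fintype V] [Nonempty V] (H : Finset V → Prop)
  (ι : Type) [Fintype ι] (J : Finset ι) (x y : V), x ≠ y → J.card = d →
  (av fun ω : ι → V => ind ((Function.Injective ω ∧ (∀ p, ω p ≠ x) ∧ ∀ p, ω p ≠ y) ∧
    ¬ H (insert x (insert y (J.image ω))))) ≤ mdg d H x y

/-- NT/XDF: few edges inside the parts. -/
def S_XDF : Prop := ∀ d k : ℕ, 1 ≤ d → 2 ≤ k → ∃ c : ℝ, 0 < c ∧ ∃ N : ℕ,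
  ∀ (V : Type) [Fintype V] [Nonempty V] (H : Finset V → Prop) (π : V → Fin k),
  N ≤ Fintype.card V → FrI d k H →
  (∀ j, 1 / (2 * (k : ℝ)) ≤ av fun v : V => ind (π v = j)) → Un d H → lsi d H π ≤ c →
  c * ein d H π ≤ lsi d H π

/-- NT/XVH: a pair of almost full degree inside a part. -/
def S_XVH : Prop := ∀ d k : ℕ, 1 ≤ d → 2 ≤ k → ∃ c : ℝ, 0 < c ∧ ∃ N : ℕ,
  ∀ (V : Type) [Fintype V] [Nonempty V] (H : Finset V → Prop) (π : V → Fin k),
  N ≤ Fintype.card V → FrI d k H →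
  (∀ j, 1 / (2 * (k : ℝ)) ≤ av fun v : V => ind (π v = j)) → lsi d H π ≤ c →
  ∀ x y : V, x ≠ y → π x = π y → mdg d H x y ≤ c → c ≤ rsi d H π x + rsi d H π y

/-- The number of vertices in the part `j`. -/
noncomputable def ps {V : Type} [Fintype V] {k : ℕ} (π : V → Fin k) (j : Fin k) : ℕ :=
  (univ.filter fun v : V => π v = j).card

/-- NT/LAM: all sequences, and the sequences inside a part. -/
def S_LAM : Prop := ∀ (d k : ℕ) (V : Type) [Fintype V] [Nonempty V] (H : Finset V → Prop),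
  Un d H → (∀ x y : V, x ≠ y → cdg d H x y + mdg d H x y =
    ((Fintype.card V - 2).descFactorial d : ℝ) / (Fintype.card V : ℝ) ^ d) ∧
  ∀ (π : V → Fin k) (x y : V), x ≠ y → π x = π y → cdg d H x y ≤
    (((Fintype.card V - 2).descFactorial d : ℝ) - ((ps π (π x) - 2).descFactorial d : ℝ)) /
      (Fintype.card V : ℝ) ^ d +
    av fun z : Fin d → V => ind (H (insert x (insert y (univ.image z))) ∧ ∀ i, π (z i) = π x)

/-- The loss of a part with `r` vertices. -/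
noncomputable def gq (n d : ℕ) (p : ℝ) (r : ℕ) : ℝ :=
  (r : ℝ) * ((r : ℝ) - 1) *
    (1 - (1 - ((r - 2).descFactorial d : ℝ) / ((n - 2).descFactorial d : ℝ)) ^ p)

/-- The residue class modulo `k`. -/
def rc (k n : ℕ) (hk : 0 < k) : Fin n → Fin k := fun v => ⟨v.val % k, Nat.mod_lt _ hk⟩

/-- NT/XOPT: equal parts are optimal. -/
def S_XOPT : Prop := ∀ d k : ℕ, 1 ≤ d → 2 ≤ k → ∃ p₀ : ℝ, 1 ≤ p₀ ∧ ∃ N : ℕ, ∀ p : ℝ, p₀ ≤ p →
  ∀ n : ℕ, N ≤ n → ∀ r s : Fin k → ℕ, ∑ j, r j = n → ∑ j, s j = n → (∀ j, n ≤ 2 * k * r j) →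
  (∀ i j, s i ≤ s j + 1) → ∑ j, gq n d p (s j) ≤ ∑ j, gq n d p (r j) ∧
  (∑ j, gq n d p (r j) ≤ ∑ j, gq n d p (s j) → ∀ i j, r i ≤ r j + 1)

/-- NT/REL: from families of sets to averages. -/
def S_REL : Prop := ∀ (d n : ℕ) (p : ℝ) (G : Finset (Finset (Fin n))), 1 ≤ d → d + 2 ≤ n → 1 ≤ p →
  (∀ e ∈ G, e.card = d + 2) →
  2 * nsum 2 (d + 2) p G = (n : ℝ) ^ 2 * av fun x : Fin n => av fun y : Fin n =>
    (cdg d (fun Z => Z ∈ G) x y / (((n - 2).descFactorial d : ℝ) / (n : ℝ) ^ d)) ^ p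

/-- All sets with `d + 2` elements which are not contained in a part. -/
noncomputable def TP (d : ℕ) {n k : ℕ} (π : Fin n → Fin k) : Finset (Finset (Fin n)) :=
  (univ.powersetCard (d + 2)).filter fun e => ∃ x ∈ e, ∃ y ∈ e, π x ≠ π y

/-- NT/TPV: the value of Turán's construction. -/
def S_TPV : Prop := ∀ (d n k : ℕ) (p : ℝ) (π : Fin n → Fin k), 1 ≤ d → d + 2 ≤ n → 1 ≤ p →
  2 * nsum 2 (d + 2) p (TP d π) = (n : ℝ) * ((n : ℝ) - 1) - ∑ j, gq n d p (ps π j)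

/-- NT/EQ: no loss. -/
def S_EQ : Prop := ∀ (d n k : ℕ) (G : Finset (Finset (Fin n))) (π : Fin n → Fin k), 1 ≤ d → 1 ≤ n →
  (∀ e ∈ G, e.card = d + 2) → lsi d (fun Z => Z ∈ G) π ≤ 0 → ein d (fun Z => Z ∈ G) π ≤ 0 →
  G = TP d π

end Pool.Agent.N594.NT
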