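import Pool.Agent.N594.NT.Asm2
import Pool.Agent.N594.NT.Stm3

/-!
# Norms of the degrees of pairs, exact theorem: the main inequality and the structure
-/

set_option autoImplicit false
set_option linter.unusedSectionVars false

open Finset
open scoped Classical

namespace Pool.Agent.N594.NT

open Pool.Agent.TH200.LP

section
variable {V : Type} [Fintype V] [Nonempty V] {d k : ℕ} {H : Finset V → Prop}

theorem mdg_nonneg (x y : V) : 0 ≤ mdg d H x y := av_nonneg fun _ => ind_nonneg _

theorem rsi_nonneg {κ : Type} (π : V → κ) (x : V) : 0 ≤ rsi d H π x :=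
  av_nonneg fun _ => mul_nonneg (ind_nonneg _) (mdg_nonneg _ _)

theorem lsi_nonneg {κ : Type} (π : V → κ) : 0 ≤ lsi d H π := av_nonneg fun _ => rsi_nonneg _ _

theorem mdg_le (x y : V) : mdg d H x y ≤ 1 - cdg d H x y := by
  unfold mdg cdg
  have h : ∀ z : Fin d → V, ind (Function.Injective
      (Fin.cons x (Fin.cons y z : Fin (d + 1) → V) : Fin (d + 2) → V) ∧
      ¬ H (insert x (insert y (univ.image z)))) ≤
      1 - ind (H (insert x (insert y (univ.image z)))) := by
    intro z
    by_cases h : H (insert x (insert y (univ.image z)))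
    · rw [ind_false (fun h' => h'.2 h), ind_true h]; norm_num
    · rw [ind_false h, sub_zero]
      exact ind_le_one _
  have := av_mono h
  rwa [av_sub, av_const] at this

theorem lsi_le_ls (π : V → Fin k) : lsi d H π ≤ ls d H π :=
  av_mono fun _ => av_mono fun _ => mul_le_mul_of_nonneg_left (mdg_le _ _) (ind_nonneg _)

/-- the factor which takes sequences to injective sequences -/
noncomputable def lam (d n : ℕ) : ℝ := ((n - 2).descFactorial d : ℝ) / (n : ℝ) ^ d

/-- the proportion of the sequences outside the part among the injective sequences -/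
noncomputable def bp (d n : ℕ) (r : ℕ) : ℝ :=
  1 - ((r - 2).descFactorial d : ℝ) / ((n - 2).descFactorial d : ℝ)

theorem bp_nonneg {n r : ℕ} (h : r ≤ n) : 0 ≤ bp d n r := by
  unfold bp
  have h1 : ((r - 2).descFactorial d : ℝ) ≤ ((n - 2).descFactorial d : ℝ) := by
    exact_mod_cast Nat.descFactorial_le d (by omega)
  have h2 : ((r - 2).descFactorial d : ℝ) / ((n - 2).descFactorial d : ℝ) ≤ 1 :=
    div_le_one_of_le₀ h1 (Nat.cast_nonneg _)
  linarith

theorem ps_le (π : V → Fin k) (j : Fin k) : ps π j ≤ Fintype.card V := card_le_univ _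

theorem sz_eq (π : V → Fin k) (j : Fin k) : sz π j = (ps π j : ℝ) / (Fintype.card V : ℝ) := by
  have h : ∀ v : V, ind (π v = j) = if π v = j then (1 : ℝ) else 0 := by
    intro v
    by_cases h : π v = j
    · rw [ind_true h, if_pos h]
    · rw [ind_false h, if_neg h]
  unfold sz av ps
  simp only [h]
  rw [sum_boole]

/-- the value of a partition -/
noncomputable def fn (d : ℕ) (p : ℝ) (π : V → Fin k) : ℝ :=
  1 - ∑ j, sz π j ^ 2 + (∑ j, sz π j ^ 2 * bp d (Fintype.card V) (ps π j) ^ p -
    1 / (Fintype.card V : ℝ) * ∑ j, sz π j * bp d (Fintype.card V) (ps π j) ^ p)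

theorem av_eq (x : V) : (av fun y : V => ind (x = y)) = 1 / (Fintype.card V : ℝ) := by
  unfold av ind
  rw [sum_ite_eq]
  simp

theorem diag_av (π : V → Fin k) (f : Fin k → ℝ) :
    (av fun x : V => av fun y : V => ind (x = y) * f (π x)) =
      1 / (Fintype.card V : ℝ) * ∑ j, sz π j * f j := by
  have h1 : ∀ x : V, (av fun y : V => ind (x = y) * f (π x)) =
      1 / (Fintype.card V : ℝ) * ∑ j, ind (π x = j) * f j := by
    intro x
    rw [av_mul_right, av_eq]
    congr 1
    rw [sum_eq_single (π x)]
    · rw [ind_true rfl, one_mul]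
    · intro j _ hj
      rw [ind_false (Ne.symm hj), zero_mul]
    · intro h; exact absurd (mem_univ _) h
  simp only [h1, av_mul_left, av_sum, av_mul_right]
  rfl

/-- the main inequality for a given partition -/
theorem core' (hCAL : S_CAL) (hLAM : S_LAM) (hU : Un d H) (π : V → Fin k) {p τ c2 : ℝ}
    (hp : 1 ≤ p) (hτ : 0 < τ) (hτ1 : τ < 1) (hc2 : 0 < c2)
    (hl0 : 0 < lam d (Fintype.card V)) (hl1 : lam d (Fintype.card V) ≤ 1)
    (hhalf : ∀ u : ℝ, c2 / 2 ≤ u → u ≤ 1 → (1 - u) ^ p ≤ 1 / 2)
    (hein : p * (1 - τ) ^ (p - 1) / lam d (Fintype.card V) * ein d H π ≤ lsi d H π / 4)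
    (hB : (av fun x : V => av fun y : V => ind (π x = π y ∧
      1 - τ < cdg d H x y / lam d (Fintype.card V))) ≤
        c2 / 16 * av fun x : V => ind (c2 ≤ rsi d H π x)) :
    (av fun x : V => av fun y : V => (cdg d H x y / lam d (Fintype.card V)) ^ p) ≤
      fn d p π - lsi d H π / 2 := by
  obtain ⟨l, hl⟩ : ∃ l : ℝ, l = lam d (Fintype.card V) := ⟨_, rfl⟩
  rw [← hl] at hl0 hl1 hein hB ⊢
  obtain ⟨hlam1, hlam2⟩ := hLAM d k V H hU
  have hn0 : (0 : ℝ) < Fintype.card V := by exact_mod_cast Fintype.card_pos (α := V)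
  have hnd : (0 : ℝ) < (Fintype.card V : ℝ) ^ d := by positivity
  have hD0 : (0 : ℝ) < ((Fintype.card V - 2).descFactorial d : ℝ) := by
    have h1 : l * (Fintype.card V : ℝ) ^ d = ((Fintype.card V - 2).descFactorial d : ℝ) := by
      rw [hl]; unfold lam; field_simp
    rw [← h1]; positivity
  set u : V → V → ℝ := fun x y => cdg d H x y / l with hu
  have hu0 : ∀ x y, 0 ≤ u x y := fun x y => div_nonneg (cdg_nonneg x y) hl0.le
  have hself : ∀ x, u x x = 0 := fun x => by simp only [hu]; rw [cdg_self hU, zero_div]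
  have hum : ∀ x y, x ≠ y → 1 - u x y = mdg d H x y / l := by
    intro x y hxy
    have h1 := hlam1 x y hxy
    have h2 : cdg d H x y + mdg d H x y = l := by rw [h1, hl]; rfl
    simp only [hu]
    rw [eq_div_iff hl0.ne', sub_mul, div_mul_cancel₀ _ hl0.ne', ← h2]
    ring
  have hu1 : ∀ x y, u x y ≤ 1 := by
    intro x y
    by_cases hxy : x = y
    · rw [hxy, hself]; norm_num
    · have h1 := hum x y hxy
      have h2 : 0 ≤ mdg d H x y / l := div_nonneg (mdg_nonneg _ _) hl0.le
      linarith
  have hmu : ∀ x y, x ≠ y → mdg d H x y ≤ 1 - u x y := by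
    intro x y hxy
    rw [hum x y hxy, le_div_iff₀ hl0]
    exact mul_le_of_le_one_right (mdg_nonneg _ _) hl1
  set L : ℝ := av fun x : V => av fun y : V => ind (π x ≠ π y) * (1 - u x y ^ p) with hL
  have hpow1 : ∀ x y : V, u x y ^ p ≤ 1 := fun x y =>
    Real.rpow_le_one (hu0 x y) (hu1 x y) (by linarith)
  have hpow : ∀ x y : V, u x y ^ p ≤ u x y := by
    intro x y
    rcases (hu0 x y).eq_or_lt with h0 | h0
    · rw [← h0, Real.zero_rpow (by linarith)]
    · have := Real.rpow_le_rpow_of_exponent_ge h0 (hu1 x y) hp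
      rwa [Real.rpow_one] at this
  -- (i)
  have hL1 : lsi d H π ≤ L := by
    refine av_mono fun x => av_mono fun y => ?_
    by_cases h : π x ≠ π y
    · have hxy : x ≠ y := fun h' => h (by rw [h'])
      exact mul_le_mul_of_nonneg_left (by linarith [hpow x y, hmu x y hxy]) (ind_nonneg _)
    · rw [ind_false h, zero_mul, zero_mul]
  have hls0 := lsi_nonneg (d := d) (H := H) π
  -- (ii)
  have hL2 : (c2 / 4) * (av fun x : V => ind (c2 ≤ rsi d H π x)) ≤ L := by
    rw [← av_mul_left]
    refine av_mono fun x => ?_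
    by_cases hx : c2 ≤ rsi d H π x
    · rw [ind_true hx, mul_one]
      have h1 : rsi d H π x ≤ (av fun y : V => ind (π x ≠ π y ∧ c2 / 2 ≤ 1 - u x y)) +
          c2 / 2 := by
        have h2 : ∀ y : V, ind (π x ≠ π y) * mdg d H x y ≤
            ind (π x ≠ π y ∧ c2 / 2 ≤ 1 - u x y) + c2 / 2 := by
          intro y
          have a1 := hu0 x y
          by_cases h3 : π x ≠ π y
          · have hxy : x ≠ y := fun h' => h3 (by rw [h'])
            have a2 := hmu x y hxy
            by_cases h4 : c2 / 2 ≤ 1 - u x y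
            · rw [ind_true h3, ind_true (P := π x ≠ π y ∧ c2 / 2 ≤ 1 - u x y) ⟨h3, h4⟩]
              linarith
            · rw [ind_true h3, ind_false (P := π x ≠ π y ∧ c2 / 2 ≤ 1 - u x y)
                (fun h => h4 h.2)]
              push Not at h4
              linarith
          · rw [ind_false h3, zero_mul]
            have := ind_nonneg (π x ≠ π y ∧ c2 / 2 ≤ 1 - u x y)
            linarith
        have := av_mono h2
        rw [av_add, av_const] at this
        exact this
      have h3 : 1 / 2 * (av fun y : V => ind (π x ≠ π y ∧ c2 / 2 ≤ 1 - u x y)) ≤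
          av fun y : V => ind (π x ≠ π y) * (1 - u x y ^ p) := by
        rw [← av_mul_left]
        refine av_mono fun y => ?_
        by_cases h4 : π x ≠ π y ∧ c2 / 2 ≤ 1 - u x y
        · rw [ind_true h4, ind_true h4.1]
          have h5 := hhalf _ h4.2 (by linarith [hu0 x y])
          rw [sub_sub_cancel] at h5
          linarith
        · rw [ind_false h4, mul_zero]
          exact mul_nonneg (ind_nonneg _) (by linarith [hpow1 x y])
      linarith
    · rw [ind_false hx, mul_zero]
      exact av_nonneg fun y => mul_nonneg (ind_nonneg _) (by linarith [hpow1 x y])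
  -- (iii)
  set g : Fin k → ℝ := fun j => bp d (Fintype.card V) (ps π j) ^ p with hg
  have hpt : ∀ x y : V, u x y ^ p ≤
      (1 - ind (π x = π y) * 1 - ind (π x ≠ π y) * (1 - u x y ^ p)) +
      ((ind (π x = π y) * g (π x) - ind (x = y) * g (π x)) +
        (p * (1 - τ) ^ (p - 1) / l) * (ind (π x = π y) * bb d H π x y) +
        ind (π x = π y ∧ 1 - τ < u x y)) := by
    intro x y
    have n0 : (0 : ℝ) ≤ p * (1 - τ) ^ (p - 1) := mul_nonneg (by linarith)
      (Real.rpow_nonneg (by linarith) _)
    have n1 : (0 : ℝ) ≤ p * (1 - τ) ^ (p - 1) / l := div_nonneg n0 hl0.le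
    have n2 := bb_nonneg (d := d) (H := H) π x y
    have n3 : (0 : ℝ) ≤ bp d (Fintype.card V) (ps π (π x)) := bp_nonneg (ps_le π (π x))
    have n4 : (0 : ℝ) ≤ g (π x) := Real.rpow_nonneg n3 _
    have n5 := mul_nonneg n1 n2
    by_cases h : π x = π y
    · rw [ind_true h, ind_false (P := π x ≠ π y) (fun h' => h' h)]
      by_cases hxy : x = y
      · subst hxy
        have a1 := ind_nonneg (π x = π x ∧ 1 - τ < u x x)
        have a2 : u x x ^ p = 0 := by rw [hself, Real.zero_rpow (by linarith)]
        rw [a2, ind_true (P := x = x) rfl]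
        refine (add_nonneg n5 a1).trans (le_of_eq ?_)
        ring
      · rw [ind_false (P := x = y) hxy]
        by_cases hg' : 1 - τ < u x y
        · rw [ind_true (P := π x = π y ∧ 1 - τ < u x y) ⟨h, hg'⟩]
          have := hpow1 x y
          linarith
        · rw [ind_false (P := π x = π y ∧ 1 - τ < u x y) (fun h' => hg' h'.2)]
          push Not at hg'
          have h1 : u x y ≤ bp d (Fintype.card V) (ps π (π x)) + bb d H π x y / l := by
            have h2 := hlam2 π x y hxy h
            have h3 : (((Fintype.card V - 2).descFactorial d : ℝ) -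
                ((ps π (π x) - 2).descFactorial d : ℝ)) / (Fintype.card V : ℝ) ^ d =
                bp d (Fintype.card V) (ps π (π x)) * l := by
              rw [hl]
              unfold bp lam
              field_simp
            rw [h3] at h2
            simp only [hu]
            rw [div_le_iff₀ hl0, add_mul, div_mul_cancel₀ _ hl0.ne']
            exact h2
          have h2 := hCAL.1 _ _ _ τ p n3 (div_nonneg n2 hl0.le) (hu0 x y) h1 hg' hτ hτ1 hp
          have h3 : p * (1 - τ) ^ (p - 1) * (bb d H π x y / l) =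
              p * (1 - τ) ^ (p - 1) / l * bb d H π x y := by ring
          rw [h3] at h2
          simp only [hg]
          linarith
    · have hxy : x ≠ y := fun h' => h (by rw [h'])
      rw [ind_false h, ind_true (P := π x ≠ π y) h, ind_false (P := π x = π y ∧ 1 - τ < u x y)
        (fun h' => h h'.1), ind_false (P := x = y) hxy]
      linarith
  have htot := av_mono fun x => av_mono fun y => hpt x y
  simp only [av_add, av_sub, av_const, av_mul_left (p * (1 - τ) ^ (p - 1) / l)] at htot
  rw [← ein_eq] at htot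
  have e1 : (av fun x : V => av fun y : V => ind (π x = π y) * 1) = ∑ j, sz π j ^ 2 * 1 :=
    same_av π fun _ => 1
  have e2 : (av fun x : V => av fun y : V => ind (π x = π y) * g (π x)) =
      ∑ j, sz π j ^ 2 * g j := same_av π g
  have e3 : (av fun x : V => av fun y : V => ind (x = y) * g (π x)) =
      1 / (Fintype.card V : ℝ) * ∑ j, sz π j * g j := diag_av π g
  rw [e1, e2, e3, ← hL] at htot
  simp only [mul_one] at htot
  have e4 : fn d p π = 1 - ∑ j, sz π j ^ 2 + (∑ j, sz π j ^ 2 * g j -
    1 / (Fintype.card V : ℝ) * ∑ j, sz π j * g j) := rfl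
  rw [e4]
  linarith

/-- the value of a partition as a sum over the parts -/
theorem fn_eq (p : ℝ) (π : V → Fin k) (hn : 1 ≤ Fintype.card V) :
    (Fintype.card V : ℝ) ^ 2 * fn d p π = (Fintype.card V : ℝ) * ((Fintype.card V : ℝ) - 1) -
      ∑ j, gq (Fintype.card V) d p (ps π j) := by
  have hn0 : (0 : ℝ) < Fintype.card V := by exact_mod_cast hn
  have h1 : ∑ j, (ps π j : ℝ) = Fintype.card V := by
    have h2 := sum_sz π
    simp only [sz_eq] at h2
    rw [← sum_div, div_eq_one_iff_eq hn0.ne'] at h2
    exact h2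
  unfold fn
  simp only [sz_eq]
  have h2 : ∀ j, gq (Fintype.card V) d p (ps π j) = (ps π j : ℝ) ^ 2 - (ps π j : ℝ) -
      ((ps π j : ℝ) ^ 2 * bp d (Fintype.card V) (ps π j) ^ p -
        (ps π j : ℝ) * bp d (Fintype.card V) (ps π j) ^ p) := by
    intro j
    unfold gq bp
    ring
  simp only [h2, sum_sub_distrib, h1]
  have h3 : ∑ j, ((ps π j : ℝ) / (Fintype.card V : ℝ)) ^ 2 =
      (∑ j, (ps π j : ℝ) ^ 2) / (Fintype.card V : ℝ) ^ 2 := by
    rw [sum_div]
    exact sum_congr rfl fun j _ => by rw [div_pow]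
  have h4 : ∑ j, ((ps π j : ℝ) / (Fintype.card V : ℝ)) ^ 2 *
      bp d (Fintype.card V) (ps π j) ^ p =
      (∑ j, (ps π j : ℝ) ^ 2 * bp d (Fintype.card V) (ps π j) ^ p) /
        (Fintype.card V : ℝ) ^ 2 := by
    rw [sum_div]
    exact sum_congr rfl fun j _ => by rw [div_pow]; ring
  have h5 : ∑ j, (ps π j : ℝ) / (Fintype.card V : ℝ) *
      bp d (Fintype.card V) (ps π j) ^ p =
      (∑ j, (ps π j : ℝ) * bp d (Fintype.card V) (ps π j) ^ p) / (Fintype.card V : ℝ) := by
    rw [sum_div]
    exact sum_congr rfl fun j _ => by ring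
  rw [h3, h4, h5]
  field_simp
  ring

end

end Pool.Agent.N594.NT
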