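import Pool.Agent.N594.NT.Asm3
import Pool.Agent.TH200.LPk
import Pool.Agent.N225.NT.UP

/-!
# Norms of the degrees of pairs: the exact theorem from its parts
-/

set_option autoImplicit false
set_option linter.unusedSectionVars false

open Finset
open scoped Classical

namespace Pool.Agent.N594.NT

open Pool.Agent.TH200.LP Pool.Agent.N594.CT Pool.Agent.N442.ES

theorem lam_le_one (d n : ℕ) : lam d n ≤ 1 := by
  unfold lam
  refine div_le_one_of_le₀ ?_ (by positivity)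
  have h1 : (n - 2).descFactorial d ≤ n ^ d :=
    (Nat.descFactorial_le_pow _ _).trans (Nat.pow_le_pow_left (by omega) _)
  exact_mod_cast h1

theorem lam_ge (d : ℕ) {δ : ℝ} (hδ : 0 < δ) : ∃ N : ℕ, ∀ n : ℕ, N ≤ n → 1 - δ ≤ lam d n := by
  obtain ⟨N, hN⟩ := exists_nat_gt (((d : ℝ) * (d + 1)) / δ)
  refine ⟨max N (d + 2), fun n hn => ?_⟩
  have hn1 : d + 2 ≤ n := (le_max_right _ _).trans hn
  have hnR : (0 : ℝ) < n := by exact_mod_cast (by omega : 0 < n)
  have hnN : (N : ℝ) ≤ n := by exact_mod_cast (le_max_left _ _).trans hn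
  have h1 : (n - 2 + 1 - d) ^ d ≤ (n - 2).descFactorial d := Nat.pow_sub_le_descFactorial _ _
  have h2 : ((n : ℝ) - (d + 1)) ^ d ≤ ((n - 2).descFactorial d : ℝ) := by
    have h3 : ((n - 2 + 1 - d : ℕ) : ℝ) = (n : ℝ) - (d + 1) := by
      have h4 : n - 2 + 1 - d = n - (d + 1) := by omega
      rw [h4, Nat.cast_sub (by omega)]
      push_cast
      ring
    rw [← h3]
    exact_mod_cast h1
  have h3 : (1 : ℝ) + (d : ℝ) * (-((d + 1) / n)) ≤ (1 + (-((d + 1) / (n : ℝ)))) ^ d := by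
    refine one_add_mul_le_pow ?_ d
    have h4 : ((d : ℝ) + 1) / n ≤ 1 := by
      rw [div_le_one hnR]
      have : (d : ℝ) + 2 ≤ n := by exact_mod_cast hn1
      linarith
    linarith
  have h4 : (1 + (-((d + 1) / (n : ℝ)))) ^ d ≤ lam d n := by
    unfold lam
    rw [le_div_iff₀ (by positivity), ← mul_pow]
    have h5 : (1 + (-((d + 1) / (n : ℝ)))) * n = (n : ℝ) - (d + 1) := by field_simp; ring
    rw [h5]
    exact h2
  have h5 : (d : ℝ) * ((d + 1) / n) ≤ δ := by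
    rw [← mul_div_assoc, div_le_iff₀ hnR]
    rw [div_lt_iff₀ hδ] at hN
    nlinarith
  linarith

theorem TC_eq {d k n : ℕ} (hk : 0 < k) : TC (d + 2) (cm k : Fin n → ℕ) = TP d (rc k n hk) := by
  ext e
  unfold TC TP
  rw [mem_filter, mem_filter]
  refine and_congr_right fun _ => ?_
  constructor
  · rintro ⟨x, hx, y, hy, hxy⟩
    exact ⟨x, hx, y, hy, fun h => hxy (congrArg Fin.val h)⟩
  · rintro ⟨x, hx, y, hy, hxy⟩
    exact ⟨x, hx, y, hy, fun h => hxy (Fin.ext h)⟩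

theorem sum_ps {n k : ℕ} (π : Fin n → Fin k) : ∑ j, ps π j = n := by
  have h := card_eq_sum_card_fiberwise (f := π) (s := univ) (t := univ) (fun v _ => mem_univ _)
  rw [card_univ, Fintype.card_fin] at h
  exact h.symm

theorem ps_rc {k n : ℕ} (hk : 0 < k) (hn : k ≤ n) (j : Fin k) :
    n / k ≤ ps (rc k n hk) j ∧ ps (rc k n hk) j ≤ n / k + 1 := by
  have h1 : ps (rc k n hk) j = (cls k n ⟨j.val, lt_of_lt_of_le j.isLt hn⟩).card := by
    unfold ps cls
    congr 1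
    ext v
    rw [mem_filter, mem_filter]
    refine and_congr_right fun _ => ?_
    rw [Fin.ext_iff]
    show v.val % k = j.val ↔ v.val % k = j.val % k
    rw [Nat.mod_eq_of_lt j.isLt]
  rw [h1]
  exact ⟨le_cls k n hk _, cls_le k n hk _⟩

theorem gq_le {n d r : ℕ} {p : ℝ} (hr : r ≤ n) (_hp : 0 ≤ p) :
    gq n d p r ≤ (r : ℝ) * ((r : ℝ) - 1) := by
  have h0 : (0 : ℝ) ≤ (r : ℝ) * ((r : ℝ) - 1) := by
    rcases Nat.eq_zero_or_pos r with rfl | h
    · norm_num
    · have : (1 : ℝ) ≤ r := by exact_mod_cast h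
      exact mul_nonneg (by linarith) (by linarith)
  unfold gq
  refine mul_le_of_le_one_right h0 ?_
  have h1 : 0 ≤ bp d n r := bp_nonneg hr
  unfold bp at h1
  have := Real.rpow_nonneg h1 p
  linarith

/-- **The exact theorem.** -/
def S_EXACT : Prop := ∀ d k : ℕ, 1 ≤ d → 2 ≤ k → ∃ p₀ : ℝ, 1 ≤ p₀ ∧ ∃ N : ℕ, ∀ p : ℝ, p₀ ≤ p →
  ∀ n : ℕ, N ≤ n → ∀ G : Finset (Finset (Fin n)), (∀ e ∈ G, e.card = d + 2) →
  KFree (d + 2) (k * (d + 1) + 1) G →
  nsum 2 (d + 2) p (TC (d + 2) (cm k : Fin n → ℕ)) ≤ nsum 2 (d + 2) p G →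
  nsum 2 (d + 2) p G ≤ nsum 2 (d + 2) p (TC (d + 2) (cm k : Fin n → ℕ)) ∧
    ∃ π : Fin n → Fin k, (∀ i j, ps π i ≤ ps π j + 1) ∧ G = TP d π

/-- lower bound for the density of the complete graphs -/
noncomputable def c0 (k : ℕ) : ℝ := (1 / (2 * (k : ℝ))) ^ (k - 1)

/-- the constant of the structure lemma -/
noncomputable def KK (k : ℕ) : ℝ := 3 * ((k : ℝ) + 2) * (k : ℝ) ^ 2 / c0 k

theorem c0_pos {k : ℕ} (hk : 2 ≤ k) : 0 < c0 k := by
  have hkR : (0 : ℝ) < k := by exact_mod_cast (by omega : 0 < k)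
  unfold c0; positivity

theorem c0_le {k : ℕ} (hk : 2 ≤ k) : c0 k ≤ 1 := by
  have hkR : (2 : ℝ) ≤ k := by exact_mod_cast hk
  unfold c0
  refine pow_le_one₀ (by positivity) ?_
  rw [div_le_one (by positivity)]
  linarith

theorem KK_pos {k : ℕ} (hk : 2 ≤ k) : 0 < KK k := by
  have hkR : (0 : ℝ) < k := by exact_mod_cast (by omega : 0 < k)
  have := c0_pos hk
  unfold KK; positivity

section
variable {V : Type} [Fintype V] [Nonempty V]

/-- a partition of a graph with many edges and few complete graphs -/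
theorem struct1 {k : ℕ} (hk : 2 ≤ k) (G : V → V → Prop) (hGs : ∀ x y, G x y → G y x) {e1 : ℝ}
    (he10 : 0 < e1) (he1s : e1 ≤ 1 / (2 * (k : ℝ) ^ 2)) (hed : 1 - 1 / (k : ℝ) - e1 ≤ ed G)
    (htk : c0 k ≤ t G k → t G (k + 1) ≤ e1 * c0 k) :
    ∃ π' : V → Fin k, Bx G π' ≤ KK k * e1 := by
  obtain ⟨m, rfl⟩ : ∃ m, k = m + 1 := ⟨k - 1, by omega⟩
  have hkR2 : (2 : ℝ) ≤ ((m + 1 : ℕ) : ℝ) := by exact_mod_cast hk
  obtain ⟨K, hK⟩ : ∃ K : ℝ, K = ((m + 1 : ℕ) : ℝ) := ⟨_, rfl⟩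
  have hc00 := c0_pos hk
  have hc01 := c0_le hk
  obtain ⟨ht, -, -, hQ⟩ := graph_main hGs (m + 1) hk (by linarith)
  have ht' : c0 (m + 1) ≤ t G (m + 1) := ht
  have htk := htk ht'
  rw [← hK] at hkR2 hed hQ
  have hKR : 0 < K := by linarith
  have ht0 : 0 < t G (m + 1) := hc00.trans_le ht'
  have htk1 : t G (m + 1 + 1) ≤ e1 := htk.trans (mul_le_of_le_one_right he10.le hc01)
  have hdiv : t G (m + 1 + 1) / (K * t G (m + 1)) ≤ e1 := by
    rw [div_le_iff₀ (by positivity)]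
    have h1 : c0 (m + 1) ≤ K * t G (m + 1) :=
      ht'.trans (le_mul_of_one_le_left ht0.le (by linarith))
    exact htk.trans (mul_le_mul_of_nonneg_left h1 he10.le)
  have hQ1 : Q G (m + 1) ≤ 2 * K ^ 2 * e1 := by
    refine hQ.trans ?_
    have h1 : (1 - 1 / K - ed G) + t G (m + 1 + 1) / (K * t G (m + 1)) ≤ 2 * e1 := by linarith
    have h2 : (0 : ℝ) ≤ K * (K - 1) := mul_nonneg hKR.le (by linarith)
    have h3 : 0 ≤ K * e1 := mul_nonneg hKR.le he10.le
    have h4 : K * (K - 1) * (2 * e1) = 2 * K ^ 2 * e1 - 2 * (K * e1) := by ring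
    refine (mul_le_mul_of_nonneg_left h1 h2).trans ?_
    rw [h4]; linarith
  obtain ⟨π', hπ'⟩ := part_lemma hGs m
  refine ⟨π', ?_⟩
  have a1 : c0 (m + 1) * Bx G π' ≤ t G (m + 1) * (Bc G π' + Bx G π') := by
    have b1 := Bc_nonneg G π'
    have b2 := Bx_nonneg G π'
    exact (mul_le_mul_of_nonneg_right ht' b2).trans
      (mul_le_mul_of_nonneg_left (by linarith) (t_nonneg G _))
  have a2 : ((m : ℝ) + 3) = K + 2 := by rw [hK]; push_cast; ring
  have a3 : Q G (m + 1) + t G (m + 2) ≤ 3 * K ^ 2 * e1 := by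
    have b2 : t G (m + 2) ≤ e1 := htk1
    have b3 : e1 ≤ K ^ 2 * e1 := le_mul_of_one_le_left he10.le (one_le_pow₀ (by linarith))
    have b4 : 3 * K ^ 2 * e1 = 2 * K ^ 2 * e1 + K ^ 2 * e1 := by ring
    rw [b4]
    exact add_le_add hQ1 (b2.trans b3)
  have h1 : c0 (m + 1) * Bx G π' ≤ (K + 2) * (3 * K ^ 2 * e1) := by
    refine a1.trans (hπ'.trans ?_)
    rw [a2]
    exact mul_le_mul_of_nonneg_left a3 (by positivity)
  unfold KK
  rw [← hK, div_mul_eq_mul_div, le_div_iff₀ hc00]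
  have h2 : (K + 2) * (3 * K ^ 2 * e1) = 3 * (K + 2) * K ^ 2 * e1 := by ring
  rw [← h2, mul_comm]
  exact h1

/-- the structure of a graph with many edges and few complete graphs -/
theorem struct2 {k : ℕ} (hk : 2 ≤ k) (hMC : S_MC) (G : V → V → Prop)
    (hGs : ∀ x y, G x y → G y x) (hGi : ∀ x, ¬ G x x) {e1 : ℝ}
    (he10 : 0 < e1) (he1s : e1 ≤ 1 / (2 * (k : ℝ) ^ 2)) (hed : 1 - 1 / (k : ℝ) - e1 ≤ ed G)
    (htk : c0 k ≤ t G k → t G (k + 1) ≤ e1 * c0 k)
    (hM : (KK k + 2) * e1 ≤ 1 / (4 * (k : ℝ) ^ 2)) :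
    ∃ π : V → Fin k, Bc G π ≤ (KK k + 1) * e1 ∧ (∀ j, 1 / (2 * (k : ℝ)) ≤ sz π j) ∧
      ∀ (x : V) (j : Fin k), (av fun y : V => ind (π y = π x ∧ G x y)) ≤
        av fun y : V => ind (π y = j ∧ G x y) := by
  obtain ⟨π', hB'⟩ := struct1 hk G hGs he10 he1s hed htk
  obtain ⟨π, hπ1, hπ2⟩ := hMC k V G (by omega) hGs hGi
  have hkR : (0 : ℝ) < k := by exact_mod_cast (by omega : 0 < k)
  have hBx : Bx G π ≤ KK k * e1 := (hπ1 π').trans hB'
  have hsplit := ed_split π G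
  have hvar := var_sz π (by omega : 0 < k)
  have hvar0 : 0 ≤ ∑ j, (sz π j - 1 / (k : ℝ)) ^ 2 := sum_nonneg fun _ _ => sq_nonneg _
  have hBc0 := Bc_nonneg G π
  refine ⟨π, by linarith, ?_, hπ2⟩
  intro j
  have h1 : (sz π j - 1 / (k : ℝ)) ^ 2 ≤ (1 / (2 * (k : ℝ))) ^ 2 := by
    have h2 : (sz π j - 1 / (k : ℝ)) ^ 2 ≤ ∑ j, (sz π j - 1 / (k : ℝ)) ^ 2 :=
      single_le_sum (f := fun j => (sz π j - 1 / (k : ℝ)) ^ 2)
        (fun _ _ => sq_nonneg _) (mem_univ j)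
    have h3 : (1 / (2 * (k : ℝ))) ^ 2 = 1 / (4 * (k : ℝ) ^ 2) := by
      rw [div_pow, mul_pow]; norm_num
    rw [h3]
    linarith
  have h2 := abs_le_of_sq_le_sq h1 (by positivity)
  have h3 : 1 / (k : ℝ) = 2 * (1 / (2 * (k : ℝ))) := by field_simp
  have h4 := (abs_le.mp h2).1
  linarith

/-- few heavy pairs inside the parts -/
theorem heavy {d k : ℕ} {H : Finset V → Prop} (hU : Un d H) (π : V → Fin k) {ε c2 cV : ℝ}
    (hε1 : ε < 1) (hεV : ε ≤ cV) (hc2V : 2 * c2 ≤ cV)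
    (hvh : ∀ x y : V, x ≠ y → π x = π y → mdg d H x y ≤ cV → cV ≤ rsi d H π x + rsi d H π y)
    (hdeg : ∀ x : V, (av fun y : V => ind (π x = π y ∧ Gr d ε H x y)) ≤ c2 / 32) :
    Bx (Gr d ε H) π ≤ c2 / 16 * av fun x : V => ind (c2 ≤ rsi d H π x) := by
  have hpt : ∀ x y : V, ind (π x = π y ∧ Gr d ε H x y) ≤
      ind (c2 ≤ rsi d H π x) * ind (π x = π y ∧ Gr d ε H x y) +
      ind (c2 ≤ rsi d H π y) * ind (π x = π y ∧ Gr d ε H x y) := by
    intro x y
    have n1 := ind_nonneg (c2 ≤ rsi d H π x)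
    have n2 := ind_nonneg (c2 ≤ rsi d H π y)
    by_cases h : π x = π y ∧ Gr d ε H x y
    · rw [ind_true h, mul_one, mul_one]
      have h2 : 1 - ε ≤ cdg d H x y := h.2
      have hxy : x ≠ y := by
        intro hxy
        rw [hxy, cdg_self hU] at h2
        linarith
      have h1 := hvh x y hxy h.1 (by
        have h3 := mdg_le (d := d) (H := H) x y
        linarith)
      by_cases h3 : c2 ≤ rsi d H π x
      · rw [ind_true h3]; linarith
      · have h4 : c2 ≤ rsi d H π y := by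
          push Not at h3
          linarith
        rw [ind_true h4]; linarith
    · rw [ind_false h]; norm_num
  have h := av_mono fun x => av_mono fun y => hpt x y
  simp only [av_add] at h
  have h1 : (av fun x : V => av fun y : V =>
      ind (c2 ≤ rsi d H π y) * ind (π x = π y ∧ Gr d ε H x y)) =
      av fun x : V => av fun y : V =>
        ind (c2 ≤ rsi d H π x) * ind (π x = π y ∧ Gr d ε H x y) := by
    rw [av_comm]
    congr 1
    funext x
    congr 1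
    funext y
    congr 1
    exact ind_congr ⟨fun h => ⟨h.1.symm, Gr_symm _ _ h.2⟩, fun h => ⟨h.1.symm, Gr_symm _ _ h.2⟩⟩
  rw [h1] at h
  have h2 : (av fun x : V => av fun y : V =>
      ind (c2 ≤ rsi d H π x) * ind (π x = π y ∧ Gr d ε H x y)) ≤
      av fun x : V => ind (c2 ≤ rsi d H π x) * (c2 / 32) := by
    refine av_mono fun x => ?_
    rw [av_mul_left]
    exact mul_le_mul_of_nonneg_left (hdeg x) (ind_nonneg _)
  rw [av_mul_right] at h2
  have h3 : Bx (Gr d ε H) π = av fun x : V => av fun y : V => ind (π x = π y ∧ Gr d ε H x y) := rfl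
  rw [h3]
  linarith

/-- many pairs of almost full degree -/
theorem many {d : ℕ} {H : Finset V → Prop} (hU : Un d H) (hLAM : S_LAM) {p ε τ l : ℝ} (hp0 : 1 ≤ p)
    (hl : l = lam d (Fintype.card V)) (hlam0 : 0 < l) (hτ1 : τ < 1) (hlamτ : 1 - τ ≤ l)
    (hττ : 1 - ε ≤ (1 - τ) * (1 - τ)) :
    (av fun x : V => av fun y : V => (cdg d H x y / l) ^ p) ≤ ed (Gr d ε H) + (1 - τ) ^ p := by
  have hc1 : ∀ x y : V, 0 ≤ cdg d H x y / l := fun x y => div_nonneg (cdg_nonneg x y) hlam0.le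
  have hpt : ∀ x y : V, (cdg d H x y / l) ^ p ≤ ind (Gr d ε H x y) + (1 - τ) ^ p := by
    intro x y
    have a0 : (0 : ℝ) ≤ (1 - τ) ^ p := Real.rpow_nonneg (by linarith) _
    by_cases hg : Gr d ε H x y
    · rw [ind_true hg]
      have hle : cdg d H x y / l ≤ 1 := by
        rw [div_le_one hlam0]
        by_cases hxy : x = y
        · rw [hxy, cdg_self hU]; exact hlam0.le
        · have h1 := (hLAM d 1 V H hU).1 x y hxy
          have h2 := mdg_nonneg (d := d) (H := H) x y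
          have h3 : cdg d H x y + mdg d H x y = l := by rw [h1, hl]; rfl
          linarith
      have := Real.rpow_le_one (hc1 x y) hle (by linarith : (0 : ℝ) ≤ p)
      linarith
    · rw [ind_false hg]
      unfold Gr at hg
      push Not at hg
      have h1 : cdg d H x y / l ≤ 1 - τ := by
        rw [div_le_iff₀ hlam0]
        have h2 : (1 - τ) * (1 - τ) ≤ (1 - τ) * l := mul_le_mul_of_nonneg_left hlamτ (by linarith)
        linarith
      have := Real.rpow_le_rpow (hc1 x y) h1 (by linarith : (0 : ℝ) ≤ p)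
      linarith
  have h := av_mono fun x => av_mono fun y => hpt x y
  simp only [av_add, av_const] at h
  exact h

end

/-- the value of Turán's construction -/
theorem low {d k n : ℕ} {p : ℝ} (hd : 1 ≤ d) (hk0 : 0 < k) (hnd : d + 2 + k ≤ n) (hp0 : 1 ≤ p)
    (hTPV : S_TPV) : (n : ℝ) ^ 2 * (1 - 1 / (k : ℝ) - 1 / n) ≤
      2 * nsum 2 (d + 2) p (TP d (rc k n hk0)) := by
  have hnR : (0 : ℝ) < n := by exact_mod_cast (by omega : 0 < n)
  have : Nonempty (Fin n) := ⟨⟨0, by omega⟩⟩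
  have hkR : (0 : ℝ) < k := by exact_mod_cast hk0
  rw [hTPV d n k p (rc k n hk0) hd (by omega) hp0]
  have h1 : ∑ j, gq n d p (ps (rc k n hk0) j) ≤ ∑ j, (n : ℝ) / k * (ps (rc k n hk0) j : ℝ) := by
    refine sum_le_sum fun j _ => ?_
    have h2 : ps (rc k n hk0) j ≤ n := by
      have := ps_le (rc k n hk0) j
      rwa [Fintype.card_fin] at this
    refine (gq_le h2 (by linarith)).trans ?_
    rw [mul_comm]
    refine mul_le_mul_of_nonneg_right ?_ (Nat.cast_nonneg _)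
    have h3 : (ps (rc k n hk0) j : ℝ) ≤ ((n / k : ℕ) : ℝ) + 1 := by
      exact_mod_cast (ps_rc hk0 (by omega : k ≤ n) j).2
    have h4 : ((n / k : ℕ) : ℝ) ≤ (n : ℝ) / k := Nat.cast_div_le
    linarith
  rw [← mul_sum] at h1
  have h2 : ∑ j, (ps (rc k n hk0) j : ℝ) = n := by exact_mod_cast sum_ps (rc k n hk0)
  rw [h2] at h1
  have h3 : (n : ℝ) ^ 2 * (1 - 1 / (k : ℝ) - 1 / n) = (n : ℝ) * (n - 1) - (n : ℝ) / k * n := by
    field_simp
    ring
  rw [h3]
  linarith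

/-- the last step for a given number of vertices -/
theorem last {d k n : ℕ} {p : ℝ} (hd : 1 ≤ d) (hk : 2 ≤ k) (hk0 : 0 < k) (hnd : d + 2 + k ≤ n)
    (hp0 : 1 ≤ p) (hREL : S_REL) (hTPV : S_TPV) (hEQ : S_EQ) (G : Finset (Finset (Fin n)))
    (hGc : ∀ e ∈ G, e.card = d + 2) (π : Fin n → Fin k) {cD : ℝ} (hcD : 0 < cD)
    (hsz : ∀ j, 1 / (2 * (k : ℝ)) ≤ sz π j)
    (hopt : ∀ r s : Fin k → ℕ, ∑ j, r j = n → ∑ j, s j = n → (∀ j, n ≤ 2 * k * r j) →
      (∀ i j, s i ≤ s j + 1) → ∑ j, gq n d p (s j) ≤ ∑ j, gq n d p (r j) ∧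
      (∑ j, gq n d p (r j) ≤ ∑ j, gq n d p (s j) → ∀ i j, r i ≤ r j + 1))
    (hcore : (av fun x : Fin n => av fun y : Fin n =>
      (cdg d (fun Z => Z ∈ G) x y / lam d n) ^ p) ≤ fn d p π - lsi d (fun Z => Z ∈ G) π / 2)
    (hdf : cD * ein d (fun Z => Z ∈ G) π ≤ lsi d (fun Z => Z ∈ G) π)
    (hge : nsum 2 (d + 2) p (TP d (rc k n hk0)) ≤ nsum 2 (d + 2) p G) :
    nsum 2 (d + 2) p G ≤ nsum 2 (d + 2) p (TP d (rc k n hk0)) ∧
      ∃ π : Fin n → Fin k, (∀ i j, ps π i ≤ ps π j + 1) ∧ G = TP d π := by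
  have hnR : (0 : ℝ) < n := by exact_mod_cast (by omega : 0 < n)
  have hkR : (0 : ℝ) < k := by exact_mod_cast hk0
  haveI : Nonempty (Fin n) := ⟨⟨0, by omega⟩⟩
  have hcard : Fintype.card (Fin n) = n := Fintype.card_fin n
  have hvG := hREL d n p G hd (by omega) hp0 hGc
  have hvT := hTPV d n k p (rc k n hk0) hd (by omega) hp0
  have hbal : ∀ i j, ps (rc k n hk0) i ≤ ps (rc k n hk0) j + 1 := by
    intro i j
    have h1 := (ps_rc hk0 (by omega : k ≤ n) i).2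
    have h2 := (ps_rc hk0 (by omega : k ≤ n) j).1
    omega
  have hfn := fn_eq (d := d) p π (by rw [hcard]; omega)
  rw [hcard] at hfn
  have hl0 := lsi_nonneg (d := d) (H := fun Z => Z ∈ G) π
  have hr : ∀ j, n ≤ 2 * k * ps π j := by
    intro j
    have h1 := hsz j
    rw [sz_eq, hcard, div_le_div_iff₀ (by positivity) hnR] at h1
    have h2 : (n : ℝ) ≤ 2 * k * ps π j := by linarith
    exact_mod_cast h2
  obtain ⟨ho1, ho2⟩ := hopt (ps π) (ps (rc k n hk0)) (sum_ps π) (sum_ps _) hr hbal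
  have hn2 : (0 : ℝ) < (n : ℝ) ^ 2 := by positivity
  have hfin : 2 * nsum 2 (d + 2) p G ≤ (n : ℝ) * (n - 1) - ∑ j, gq n d p (ps π j) -
      (n : ℝ) ^ 2 * (lsi d (fun Z => Z ∈ G) π / 2) := by
    have h1 := mul_le_mul_of_nonneg_left hcore hn2.le
    rw [mul_sub, hfn] at h1
    rw [hvG]
    exact h1
  have hln : 0 ≤ (n : ℝ) ^ 2 * (lsi d (fun Z => Z ∈ G) π / 2) := by positivity
  refine ⟨by linarith, π, ho2 (by linarith), ?_⟩
  have hl1 : lsi d (fun Z => Z ∈ G) π ≤ 0 := by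
    have h1 : (n : ℝ) ^ 2 * (lsi d (fun Z => Z ∈ G) π / 2) ≤ 0 := by linarith
    by_contra hcon
    push Not at hcon
    have : 0 < (n : ℝ) ^ 2 * (lsi d (fun Z => Z ∈ G) π / 2) := by positivity
    linarith
  refine hEQ d n k G π hd (by omega) hGc hl1 ?_
  by_contra hcon
  push Not at hcon
  have : 0 < cD * ein d (fun Z => Z ∈ G) π := mul_pos hcD hcon
  linarith

/-- **The exact theorem from its parts.** -/
theorem main2 (hFK : S_FK) (hNB : S_NB) (hXDF : S_XDF) (hXVH : S_XVH) (hMC : S_MC)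
    (hXOPT : S_XOPT) (hCAL : S_CAL) (hLAM : S_LAM) (hREL : S_REL) (hTPV : S_TPV) (hEQ : S_EQ) :
    S_EXACT := by
  intro d k hd hk
  have hk0 : 0 < k := by omega
  have hk1 : 1 ≤ k := by omega
  have hkR : (0 : ℝ) < k := by exact_mod_cast (by omega : 0 < k)
  have hkR2 : (2 : ℝ) ≤ k := by exact_mod_cast hk
  obtain ⟨C, hC, hFK⟩ := hFK d k hd hk1
  obtain ⟨cD, hcD, ND, hDF⟩ := hXDF d k hd hk
  obtain ⟨cV, hcV, NV, hVH⟩ := hXVH d k hd hk
  obtain ⟨c2, hc2⟩ : ∃ c2 : ℝ, c2 = min cV 1 / 2 := ⟨_, rfl⟩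
  have hc20 : 0 < c2 := by rw [hc2]; exact half_pos (lt_min hcV one_pos)
  have hc21 : c2 ≤ 1 / 2 := by
    rw [hc2]
    have := min_le_right cV 1
    linarith
  have hc2V : 2 * c2 ≤ cV := by
    rw [hc2]
    have := min_le_left cV 1
    linarith
  obtain ⟨η, hη, hNB⟩ := hNB d k hd hk1 (c2 / 32) (by positivity)
  have hc00 := c0_pos hk
  have hK0 := KK_pos hk
  obtain ⟨M, hM⟩ : ∃ M : ℝ, M = min (min η cD) (min (min cV 1) (1 / (4 * (k : ℝ) ^ 2))) := ⟨_, rfl⟩
  have hM0 : 0 < M := by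
    rw [hM]
    exact lt_min (lt_min hη hcD) (lt_min (lt_min hcV one_pos) (by positivity))
  have hM1 : M ≤ η := by rw [hM]; exact (min_le_left _ _).trans (min_le_left _ _)
  have hM2 : M ≤ cD := by rw [hM]; exact (min_le_left _ _).trans (min_le_right _ _)
  have hM3 : M ≤ cV := by
    rw [hM]; exact (min_le_right _ _).trans ((min_le_left _ _).trans (min_le_left _ _))
  have hM4 : M ≤ 1 / (4 * (k : ℝ) ^ 2) := by
    rw [hM]; exact (min_le_right _ _).trans (min_le_right _ _)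
  clear hM
  have hk4 : 1 / (4 * (k : ℝ) ^ 2) ≤ 1 / 16 :=
    one_div_le_one_div_of_le (by norm_num) (by nlinarith)
  obtain ⟨e1, he1⟩ : ∃ e1 : ℝ, e1 = M / (KK k + 2) := ⟨_, rfl⟩
  have he10 : 0 < e1 := by rw [he1]; positivity
  have he1K : (KK k + 2) * e1 = M := by rw [he1]; field_simp
  clear he1
  have he1M : e1 ≤ M := by
    rw [← he1K]
    exact le_mul_of_one_le_left he10.le (by linarith)
  have he1s : e1 ≤ 1 / (2 * (k : ℝ) ^ 2) := by
    have : 1 / (4 * (k : ℝ) ^ 2) ≤ 1 / (2 * (k : ℝ) ^ 2) :=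
      one_div_le_one_div_of_le (by positivity) (by nlinarith)
    linarith
  obtain ⟨ε, hε⟩ : ∃ ε : ℝ, ε = min e1 (e1 * c0 k ^ (d + 1) / C) := ⟨_, rfl⟩
  have hε0 : 0 < ε := by rw [hε]; exact lt_min he10 (by positivity)
  have hεe : ε ≤ e1 := by rw [hε]; exact min_le_left _ _
  have hεC : C * ε ≤ e1 * c0 k ^ (d + 1) := by
    have h : ε ≤ e1 * c0 k ^ (d + 1) / C := by rw [hε]; exact min_le_right _ _
    rw [le_div_iff₀ hC] at h
    linarith
  clear hε
  have hε1 : ε < 1 := by linarith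
  obtain ⟨τ, hτ⟩ : ∃ τ : ℝ, τ = ε / 2 := ⟨_, rfl⟩
  have hτ0 : 0 < τ := by rw [hτ]; positivity
  have hτ1 : τ < 1 := by rw [hτ]; linarith
  have hττ : 1 - ε ≤ (1 - τ) * (1 - τ) := by rw [hτ]; nlinarith
  -- the exponents
  obtain ⟨p1, hp1, hp1'⟩ := hCAL.2 (c2 / 2) (by positivity) (by linarith)
  obtain ⟨c', hc'⟩ : ∃ c' : ℝ, c' = min τ (min (cD / 8) (e1 / 2)) := ⟨_, rfl⟩
  have hc'0 : 0 < c' := by rw [hc']; exact lt_min hτ0 (lt_min (by positivity) (by positivity))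
  have hc'τ : c' ≤ τ := by rw [hc']; exact min_le_left _ _
  have hc'D : c' ≤ cD / 8 := by rw [hc']; exact (min_le_right _ _).trans (min_le_left _ _)
  have hc'e : c' ≤ e1 / 2 := by rw [hc']; exact (min_le_right _ _).trans (min_le_right _ _)
  clear hc'
  obtain ⟨p2, hp2, hp2'⟩ := hCAL.2 c' hc'0 (by linarith)
  obtain ⟨p3, hp3, NO, hp3'⟩ := hXOPT d k hd hk
  obtain ⟨NL, hNL⟩ := lam_ge d hτ0
  obtain ⟨NE, hNE⟩ := exists_nat_gt (2 / e1)
  refine ⟨max p1 (max p2 p3), hp1.trans (le_max_left _ _),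
    max (max ND NV) (max (max NO NL) (max NE (d + 2 + k))), ?_⟩
  intro p hp n hn G hGc hKF hge
  obtain ⟨hhalf, -, -⟩ := hp1' p ((le_max_left _ _).trans hp)
  obtain ⟨-, hq2, hq3⟩ := hp2' p ((le_max_left _ _).trans ((le_max_right _ _).trans hp))
  have hp0 : 1 ≤ p := hp1.trans ((le_max_left _ _).trans hp)
  have hnD : ND ≤ n := (le_max_left _ _).trans ((le_max_left _ _).trans hn)
  have hnV : NV ≤ n := (le_max_right _ _).trans ((le_max_left _ _).trans hn)
  have hnO : NO ≤ n := (le_max_left _ _).trans ((le_max_left _ _).trans ((le_max_right _ _).trans hn))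
  have hnL : NL ≤ n := (le_max_right _ _).trans ((le_max_left _ _).trans
    ((le_max_right _ _).trans hn))
  have hnE : NE ≤ n := (le_max_left _ _).trans ((le_max_right _ _).trans
    ((le_max_right _ _).trans hn))
  have hnd : d + 2 + k ≤ n := (le_max_right _ _).trans ((le_max_right _ _).trans
    ((le_max_right _ _).trans hn))
  have hopt := hp3' p ((le_max_right _ _).trans ((le_max_right _ _).trans hp)) n hnO
  have hnR : (0 : ℝ) < n := by exact_mod_cast (by omega : 0 < n)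
  haveI : Nonempty (Fin n) := ⟨⟨0, by omega⟩⟩
  have hnE' : 1 / (n : ℝ) ≤ e1 / 2 := by
    have h1 : 2 / e1 ≤ n := hNE.le.trans (by exact_mod_cast hnE)
    rw [div_le_iff₀ he10] at h1
    rw [div_le_iff₀ hnR]
    linarith
  have hlamτ := hNL n hnL
  clear hp1' hp2' hp3' hNL hNE hp hn hp1 hp2 hp3
  have hlam1 := lam_le_one d n
  have hlamh : 1 / 2 ≤ lam d n := by linarith
  have hlam0 : 0 < lam d n := by linarith
  have hcard : Fintype.card (Fin n) = n := Fintype.card_fin n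
  have hU : Un d (fun Z : Finset (Fin n) => Z ∈ G) := fun Z hZ => hGc Z hZ
  have hF : Fr d k (fun Z : Finset (Fin n) => Z ∈ G) :=
    Pool.Agent.N225.NT.UP.fr_of hk G hGc hKF
  have hFI : FrI d k (fun Z : Finset (Fin n) => Z ∈ G) := fun φ _ => hF φ
  rw [TC_eq hk0] at hge ⊢
  have hlowT := low hd hk0 hnd hp0 hTPV
  have hvG := hREL d n p G hd (by omega) hp0 hGc
  -- many pairs of almost full degree
  have hed : 1 - 1 / (k : ℝ) - e1 ≤ ed (Gr d ε (fun Z : Finset (Fin n) => Z ∈ G)) := by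
    have h1 : (av fun x : Fin n => av fun y : Fin n =>
        (cdg d (fun Z : Finset (Fin n) => Z ∈ G) x y / lam d n) ^ p) ≤ _ :=
      many hU hLAM hp0 (by rw [hcard]) hlam0 hτ1 hlamτ hττ
    have h2 : 1 - 1 / (k : ℝ) - 1 / n ≤ av fun x : Fin n => av fun y : Fin n =>
        (cdg d (fun Z : Finset (Fin n) => Z ∈ G) x y / lam d n) ^ p := by
      refine le_of_mul_le_mul_left (a := (n : ℝ) ^ 2) ?_ (by positivity)
      refine hlowT.trans (le_trans (by linarith) (le_of_eq hvG))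
    have h3 : (1 - τ) ^ p ≤ (1 - c') ^ p :=
      Real.rpow_le_rpow (by linarith) (by linarith) (by linarith)
    linarith
  have hfk := hFK (Fin n) _ ε hε0.le hF
  obtain ⟨π, hBc, hsz, hπ2⟩ := struct2 hk hMC (Gr d ε (fun Z : Finset (Fin n) => Z ∈ G))
    (fun x y h => Gr_symm x y h) (by
      intro x hx
      unfold Gr at hx
      rw [cdg_self hU] at hx
      linarith) he10 he1s hed (by
      intro ht
      have h1 : c0 k ^ d * t (Gr d ε (fun Z : Finset (Fin n) => Z ∈ G)) (k + 1) ≤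
          c0 k ^ d * (e1 * c0 k) := by
        refine ((mul_le_mul_of_nonneg_right (pow_le_pow_left₀ hc00.le ht d)
          (t_nonneg _ _)).trans (hfk.trans hεC)).trans (le_of_eq ?_)
        ring
      exact le_of_mul_le_mul_left h1 (by positivity)) (by rw [he1K]; exact hM4)
  clear hfk
  have hKe : (KK k + 1) * e1 = M - e1 := by rw [← he1K]; ring
  have hls : lsi d (fun Z : Finset (Fin n) => Z ∈ G) π ≤ M := by
    have h1 := ls_le (d := d) (H := fun Z : Finset (Fin n) => Z ∈ G) π hε0.le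
    have h2 := lsi_le_ls (d := d) (H := fun Z : Finset (Fin n) => Z ∈ G) π
    linarith
  have hvh := hVH (Fin n) _ π (by rw [hcard]; exact hnV) hFI hsz (hls.trans hM3)
  have hdf := hDF (Fin n) _ π (by rw [hcard]; exact hnD) hFI hsz hU (hls.trans hM2)
  have hdeg : ∀ x : Fin n, (av fun y : Fin n => ind (π x = π y ∧
      Gr d ε (fun Z : Finset (Fin n) => Z ∈ G) x y)) ≤ c2 / 32 := by
    intro x
    obtain ⟨j, hj⟩ := hNB (Fin n) _ π ε hε0.le (by linarith) hF (by linarith) x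
    have h2 : (fun y : Fin n => ind (π x = π y ∧
        Gr d ε (fun Z : Finset (Fin n) => Z ∈ G) x y)) =
        fun y : Fin n => ind (π y = π x ∧ Gr d ε (fun Z : Finset (Fin n) => Z ∈ G) x y) := by
      funext y
      exact ind_congr ⟨fun h => ⟨h.1.symm, h.2⟩, fun h => ⟨h.1.symm, h.2⟩⟩
    rw [h2]
    exact (hπ2 x j).trans hj.le
  have hBx2 := heavy hU π hε1 (by linarith) hc2V hvh hdeg
  have hein0 : 0 ≤ ein d (fun Z : Finset (Fin n) => Z ∈ G) π := av_nonneg fun _ => ind_nonneg _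
  have hein : p * (1 - τ) ^ (p - 1) / lam d (Fintype.card (Fin n)) *
      ein d (fun Z : Finset (Fin n) => Z ∈ G) π ≤
      lsi d (fun Z : Finset (Fin n) => Z ∈ G) π / 4 := by
    rw [hcard]
    have h1 : (1 - τ) ^ (p - 1) ≤ (1 - c') ^ (p - 1) :=
      Real.rpow_le_rpow (by linarith) (by linarith) (by linarith)
    have h2 : p * (1 - τ) ^ (p - 1) ≤ cD / 8 :=
      (mul_le_mul_of_nonneg_left h1 (by linarith)).trans (hq2.trans hc'D)
    have h3 : p * (1 - τ) ^ (p - 1) / lam d n ≤ cD / 4 := by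
      rw [div_le_iff₀ hlam0]
      have h4 : cD / 4 * (1 / 2) ≤ cD / 4 * lam d n :=
        mul_le_mul_of_nonneg_left hlamh (by linarith)
      linarith
    refine (mul_le_mul_of_nonneg_right h3 hein0).trans ?_
    linarith
  have hB : (av fun x : Fin n => av fun y : Fin n => ind (π x = π y ∧
      1 - τ < cdg d (fun Z : Finset (Fin n) => Z ∈ G) x y / lam d (Fintype.card (Fin n)))) ≤
        c2 / 16 * av fun x : Fin n =>
          ind (c2 ≤ rsi d (fun Z : Finset (Fin n) => Z ∈ G) π x) := by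
    refine le_trans (av_mono fun x => av_mono fun y => ind_mono ?_) hBx2
    rintro ⟨h1, h2⟩
    refine ⟨h1, ?_⟩
    rw [hcard, lt_div_iff₀ hlam0] at h2
    have h3 : (1 - τ) * (1 - τ) ≤ (1 - τ) * lam d n :=
      mul_le_mul_of_nonneg_left hlamτ (by linarith)
    show 1 - ε ≤ cdg d (fun Z : Finset (Fin n) => Z ∈ G) x y
    linarith
  have hcore := core' hCAL hLAM hU π hp0 hτ0 hτ1 hc20 (by rw [hcard]; exact hlam0)
    (by rw [hcard]; exact hlam1) (fun u h1 h2 => hhalf u h1 h2) hein hB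
  rw [hcard] at hcore
  exact last hd hk hk0 hnd hp0 hREL hTPV hEQ G hGc π hcD hsz hopt hcore hdf hge

end Pool.Agent.N594.NT
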