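import Pool.Agent.N594.NT.Gap2

/-!
# The number of edges and the degrees of pairs, for families of sets
-/

set_option autoImplicit false
set_option linter.unusedSectionVars false

open Finset
open scoped Classical

namespace Pool.Agent.N594.NT

open Pool.Agent.TH200.LP Pool.Agent.N594.CT Pool.Agent.N442.ES

theorem sum_av2 {n : ℕ} (hn : 0 < n) (g : Fin n → Fin n → ℝ) :
    (n : ℝ) ^ 2 * (av fun x : Fin n => av fun y : Fin n => g x y) =
      ∑ q : Fin n × Fin n, g q.1 q.2 := by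
  have hn0 : (n : ℝ) ≠ 0 := by exact_mod_cast hn.ne'
  rw [Fintype.sum_prod_type]
  unfold av
  rw [Fintype.card_fin, ← sum_div]
  field_simp

/-- a sum over the ordered pairs of different elements -/
theorem sum_av3 {n : ℕ} (hn : 0 < n) (g : Fin n → Fin n → ℝ) (F : Finset (Fin n) → ℝ)
    (h0 : ∀ x, g x x = 0) (h1 : ∀ x y, x ≠ y → ∀ X : Finset (Fin n),
      (∀ v, v ∈ X ↔ v = x ∨ v = y) → g x y = F X) :
    (n : ℝ) ^ 2 * (av fun x : Fin n => av fun y : Fin n => g x y) =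
      2 * ∑ X ∈ (univ : Finset (Fin n)).powersetCard 2, F X := by
  rw [sum_av2 hn, Pool.Agent.N135.NT.REL.pairs, sum_filter]
  refine sum_congr rfl fun q _ => ?_
  by_cases hq : q.1 = q.2
  · rw [if_neg (fun h => h hq), hq, h0]
  · rw [if_pos hq]
    exact h1 _ _ hq _ fun v => by simp only [mem_insert, mem_singleton]

/-- the degree of a pair as an average -/
theorem cdg_degr {d n : ℕ} (hn : d + 2 ≤ n) (G : Finset (Finset (Fin n)))
    (hG : ∀ e ∈ G, e.card = d + 2) (x y : Fin n) (hxy : x ≠ y) (X : Finset (Fin n))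
    (hX : ∀ v, v ∈ X ↔ v = x ∨ v = y) :
    cdg d (fun Z => Z ∈ G) x y =
      lam d n * ((degr G X : ℝ) / ((n - 2).choose d : ℝ)) := by
  have hne : Nonempty (Fin n) := ⟨x⟩
  have hn0 : (n : ℝ) ≠ 0 := by
    have : n ≠ 0 := by omega
    exact_mod_cast this
  have h3 := Pool.Agent.N135.NT.REL.cdg_eq d (fun Z : Finset (Fin n) => Z ∈ G) x y
  rw [Pool.Agent.N135.NT.REL.seq_eq d G hG (fun Z : Finset (Fin n) => Z ∈ G) (fun Z => Iff.rfl)
    x y hxy, Fintype.card_fin] at h3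
  have h8 : ∀ A B : Finset (Finset (Fin n)), (∀ e, e ∈ A ↔ e ∈ B) → A.card = B.card :=
    fun A B h => by rw [Finset.ext h]
  have h9 : cdg d (fun Z : Finset (Fin n) => Z ∈ G) x y * (n : ℝ) ^ d =
      (d.factorial : ℝ) * (degr G X : ℝ) := by
    rw [h3, Nat.cast_mul]
    unfold degr
    refine congrArg (fun t : ℕ => (d.factorial : ℝ) * (t : ℝ)) (h8 _ _ fun e => ?_)
    simp only [mem_filter, subset_iff, hX, forall_eq_or_imp, forall_eq]
  have h5 : ((n - 2).descFactorial d : ℝ) = (d.factorial : ℝ) * ((n - 2).choose d : ℝ) := by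
    rw [Nat.descFactorial_eq_factorial_mul_choose, Nat.cast_mul]
  have hC : ((n - 2).choose d : ℝ) ≠ 0 := by
    have := Nat.choose_pos (n := n - 2) (k := d) (by omega)
    positivity
  have h6 : (n : ℝ) ^ d ≠ 0 := pow_ne_zero _ hn0
  unfold lam
  rw [h5]
  have h7 : (d.factorial : ℝ) * ((n - 2).choose d : ℝ) / (n : ℝ) ^ d *
      ((degr G X : ℝ) / ((n - 2).choose d : ℝ)) =
      (d.factorial : ℝ) * (degr G X : ℝ) / (n : ℝ) ^ d := by
    field_simp
  rw [h7, eq_div_iff h6, h9]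

/-- double counting -/
theorem sum_degr {d n : ℕ} (G : Finset (Finset (Fin n))) (hG : ∀ e ∈ G, e.card = d + 2) :
    ∑ X ∈ (univ : Finset (Fin n)).powersetCard 2, (degr G X : ℝ) =
      ((d + 2).choose 2 : ℝ) * G.card := by
  have h : ∑ X ∈ (univ : Finset (Fin n)).powersetCard 2, degr G X =
      (d + 2).choose 2 * G.card := by
    unfold degr
    simp only [card_filter]
    rw [sum_comm]
    have h1 : ∀ e ∈ G, (∑ X ∈ (univ : Finset (Fin n)).powersetCard 2, if X ⊆ e then 1 else 0) =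
        (d + 2).choose 2 := by
      intro e he
      rw [← card_filter, ← hG e he, ← card_powersetCard 2 e]
      congr 1
      ext X
      simp only [mem_filter, mem_powersetCard, subset_univ, true_and]
      exact and_comm
    rw [sum_congr rfl h1, sum_const, smul_eq_mul, mul_comm]
  exact_mod_cast h

/-- **The density and the degrees of the pairs.** -/
theorem gap_fin (h : S_GAPW) (d k : ℕ) (hd : 1 ≤ d) (hk : 2 ≤ k) : ∃ ε : ℝ, 0 < ε ∧ ε < 1 ∧
    ∀ δ : ℝ, 0 < δ → ∃ η : ℝ, 0 < η ∧ ∃ N : ℕ, ∀ n : ℕ, N ≤ n →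
    ∀ G : Finset (Finset (Fin n)),
    (∀ e ∈ G, e.card = d + 2) → KFree (d + 2) (k * (d + 1) + 1) G →
    ((((univ : Finset (Fin n)).powersetCard 2).filter fun X =>
      (1 - 1 / (k : ℝ) ^ d + η) * ((n - 2).choose d : ℝ) < (degr G X : ℝ) ∧
        (degr G X : ℝ) < (1 - ε) * ((n - 2).choose d : ℝ)).card : ℝ) ≤ η * (n.choose 2 : ℝ) →
    (G.card : ℝ) ≤ (1 - 1 / (k : ℝ) ^ (d + 1) + δ) * (n.choose (d + 2) : ℝ) := by
  obtain ⟨ε0, hε0, hε01, h⟩ := h d k hd hk
  refine ⟨ε0 / 2, by linarith, by linarith, fun δ hδ => ?_⟩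
  obtain ⟨τ, hτd⟩ : ∃ τ : ℝ, τ = min (min (1 / 8) (δ / 8)) (ε0 / 2) := ⟨_, rfl⟩
  have hτ0 : 0 < τ := by
    rw [hτd]
    exact lt_min (lt_min (by norm_num) (by linarith)) (by linarith)
  have hτ1 : τ ≤ 1 / 8 := by rw [hτd]; exact (min_le_left _ _).trans (min_le_left _ _)
  have hτ2 : τ ≤ δ / 8 := by rw [hτd]; exact (min_le_left _ _).trans (min_le_right _ _)
  have hτ3 : τ ≤ ε0 / 2 := by rw [hτd]; exact min_le_right _ _
  clear hτd
  obtain ⟨N1, hN1⟩ := lam_ge d hτ0
  obtain ⟨N2, hN2⟩ := exists_nat_gt (1 / τ)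
  refine ⟨δ / 8, by linarith, max N1 (max N2 (d + 3)), fun n hn G hG hK hE => ?_⟩
  have hn1 : N1 ≤ n := (le_max_left _ _).trans hn
  have hn2 : N2 ≤ n := ((le_max_left _ _).trans (le_max_right _ _)).trans hn
  have hn3 : d + 3 ≤ n := ((le_max_right _ _).trans (le_max_right _ _)).trans hn
  haveI hne : Nonempty (Fin n) := ⟨⟨0, by omega⟩⟩
  have hnR : (0 : ℝ) < n := by exact_mod_cast (by omega : 0 < n)
  have hU : Un d (fun Z : Finset (Fin n) => Z ∈ G) := fun Z hZ => hG Z hZ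
  have hF : Fr d k (fun Z : Finset (Fin n) => Z ∈ G) :=
    Pool.Agent.N225.NT.UP.fr_of hk G hG hK
  have hkR1 : (1 : ℝ) ≤ k := by exact_mod_cast (by omega : 1 ≤ k)
  have hkd : (0 : ℝ) < 1 / (k : ℝ) ^ d := by positivity
  have hkd1 : 1 / (k : ℝ) ^ d ≤ 1 := by
    rw [div_le_one (by positivity)]
    exact one_le_pow₀ hkR1
  have hke : (0 : ℝ) < 1 / (k : ℝ) ^ (d + 1) := by positivity
  have hke1 : 1 / (k : ℝ) ^ (d + 1) ≤ 1 := by
    rw [div_le_one (by positivity)]
    exact one_le_pow₀ hkR1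
  have hlam := hN1 n hn1
  have hlam1 := lam_le_one d n
  have hC0 : (0 : ℝ) < ((n - 2).choose d : ℝ) := by
    have := Nat.choose_pos (n := n - 2) (k := d) (by omega)
    exact_mod_cast this
  have h1 := h (Fin n) (fun Z : Finset (Fin n) => Z ∈ G) hU hF
  -- the excess
  obtain ⟨E, hEd⟩ : ∃ E : Finset (Finset (Fin n)), E =
    ((univ : Finset (Fin n)).powersetCard 2).filter fun X =>
      (1 - 1 / (k : ℝ) ^ d + δ / 8) * ((n - 2).choose d : ℝ) < (degr G X : ℝ) ∧
        (degr G X : ℝ) < (1 - ε0 / 2) * ((n - 2).choose d : ℝ) := ⟨_, rfl⟩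
  rw [← hEd] at hE
  have hexc : ∀ x y : Fin n, exc d k ε0 (fun Z : Finset (Fin n) => Z ∈ G) x y ≤
      δ / 8 + ind (x ≠ y ∧ ({x, y} : Finset (Fin n)) ∈ E) := by
    intro x y
    have n0 := ind_nonneg (x ≠ y ∧ ({x, y} : Finset (Fin n)) ∈ E)
    unfold exc
    by_cases hg : 1 - 1 / (k : ℝ) ^ d < cdg d (fun Z : Finset (Fin n) => Z ∈ G) x y ∧
        cdg d (fun Z : Finset (Fin n) => Z ∈ G) x y < 1 - ε0
    · rw [ind_true hg, one_mul]
      have hxy : x ≠ y := by
        intro hxy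
        rw [hxy, cdg_self hU] at hg
        linarith [hg.1]
      have hc := cdg_degr (by omega) G hG x y hxy {x, y}
        (fun v => by simp only [mem_insert, mem_singleton])
      have hc1 := cdg_le_one (d := d) (H := fun Z : Finset (Fin n) => Z ∈ G) x y
      have hr0 : (0 : ℝ) ≤ (degr G {x, y} : ℝ) / ((n - 2).choose d : ℝ) := by positivity
      by_cases hA : (1 - 1 / (k : ℝ) ^ d + δ / 8) * ((n - 2).choose d : ℝ) <
          (degr G {x, y} : ℝ)
      · by_cases hB : (degr G {x, y} : ℝ) < (1 - ε0 / 2) * ((n - 2).choose d : ℝ)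
        · have hmem : ({x, y} : Finset (Fin n)) ∈ E := by
            rw [hEd, mem_filter, mem_powersetCard]
            exact ⟨⟨subset_univ _, card_pair hxy⟩, hA, hB⟩
          rw [ind_true ⟨hxy, hmem⟩]
          linarith
        · exfalso
          push Not at hB
          rw [← le_div_iff₀ hC0] at hB
          have h5 : (1 - ε0 / 2) * (1 - ε0 / 2) ≤
              lam d n * ((degr G {x, y} : ℝ) / ((n - 2).choose d : ℝ)) :=
            mul_le_mul (by linarith) hB (by linarith) (by linarith)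
          have h6 : 1 - ε0 ≤ (1 - ε0 / 2) * (1 - ε0 / 2) := by nlinarith
          linarith [hg.2]
      · push Not at hA
        rw [← div_le_iff₀ hC0] at hA
        have h5 : lam d n * ((degr G {x, y} : ℝ) / ((n - 2).choose d : ℝ)) ≤
            (degr G {x, y} : ℝ) / ((n - 2).choose d : ℝ) :=
          mul_le_of_le_one_left hr0 hlam1
        linarith
    · rw [ind_false hg, zero_mul]
      linarith
  have hav := av_mono fun x => av_mono fun y => hexc x y
  simp only [av_add, av_const] at hav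
  have hcE : (n : ℝ) ^ 2 * (av fun x : Fin n => av fun y : Fin n =>
      ind (x ≠ y ∧ ({x, y} : Finset (Fin n)) ∈ E)) = 2 * (E.card : ℝ) := by
    have hsub : E ⊆ (univ : Finset (Fin n)).powersetCard 2 := by
      rw [hEd]
      exact filter_subset _ _
    rw [sum_av3 (by omega) _ (fun X => ind (X ∈ E)) (fun x => ind_false fun h => h.1 rfl)
      (fun x y hxy X hX => by
        have hXe : X = {x, y} := by
          ext v
          rw [hX, mem_insert, mem_singleton]
        rw [hXe]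
        exact ind_congr ⟨fun h => h.2, fun h => ⟨hxy, h⟩⟩),
      ← sum_subset hsub (fun X _ hX => ind_false hX), sum_congr rfl fun X hX => ind_true hX,
      sum_const, nsmul_eq_mul, mul_one]
  have hc2 : 2 * (n.choose 2 : ℝ) = n * (n - 1) := by
    rw [Nat.cast_choose_two]
    ring
  have hind : (av fun x : Fin n => av fun y : Fin n =>
      ind (x ≠ y ∧ ({x, y} : Finset (Fin n)) ∈ E)) ≤ δ / 8 := by
    have h5 : (n : ℝ) ^ 2 * (av fun x : Fin n => av fun y : Fin n =>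
      ind (x ≠ y ∧ ({x, y} : Finset (Fin n)) ∈ E)) ≤ (n : ℝ) ^ 2 * (δ / 8) := by
      rw [hcE]
      have h6 : 2 * (E.card : ℝ) ≤ δ / 8 * (2 * (n.choose 2 : ℝ)) := by linarith
      rw [hc2] at h6
      nlinarith
    exact le_of_mul_le_mul_left h5 (by positivity)
  have h2 : (av fun x : Fin n => av fun y : Fin n => cdg d (fun Z : Finset (Fin n) => Z ∈ G) x y) ≤
      1 - 1 / (k : ℝ) ^ (d + 1) + δ / 4 := by linarith
  -- the number of edges
  have h3 : (n : ℝ) ^ 2 * (av fun x : Fin n => av fun y : Fin n =>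
      cdg d (fun Z : Finset (Fin n) => Z ∈ G) x y) =
      2 * (lam d n * (((d + 2).choose 2 : ℝ) * G.card) / ((n - 2).choose d : ℝ)) := by
    rw [sum_av3 (by omega) _ (fun X => lam d n * ((degr G X : ℝ) / ((n - 2).choose d : ℝ)))
      (fun x => cdg_self hU x) (fun x y hxy X hX => cdg_degr (by omega) G hG x y hxy X hX),
      ← mul_sum, ← sum_div, sum_degr G hG]
    ring
  have h4 : (n.choose (d + 2) : ℝ) * ((d + 2).choose 2 : ℝ) =
      (n.choose 2 : ℝ) * ((n - 2).choose d : ℝ) := by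
    have := Nat.choose_mul (n := n) (k := d + 2) (s := 2) (by omega)
    rw [show d + 2 - 2 = d by omega] at this
    exact_mod_cast this
  have hc3 : (0 : ℝ) < ((d + 2).choose 2 : ℝ) := by
    have := Nat.choose_pos (n := d + 2) (k := 2) (by omega)
    exact_mod_cast this
  have hL0 : 0 < lam d n := by linarith
  have hτn : (1 - τ) * n ≤ (n : ℝ) - 1 := by
    have h5 : 1 / τ < (n : ℝ) := hN2.trans_le (by exact_mod_cast hn2)
    rw [div_lt_iff₀ hτ0] at h5
    nlinarith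
  have h5 : (n : ℝ) ^ 2 * (1 - 1 / (k : ℝ) ^ (d + 1) + δ / 4) ≤
      (1 - 1 / (k : ℝ) ^ (d + 1) + δ) * (lam d n * (2 * (n.choose 2 : ℝ))) := by
    have h6 : (n : ℝ) ^ 2 * ((1 - τ) * (1 - τ)) ≤ lam d n * (2 * (n.choose 2 : ℝ)) := by
      rw [hc2]
      have h7 : (1 - τ) * ((1 - τ) * n) ≤ lam d n * ((n : ℝ) - 1) :=
        mul_le_mul hlam hτn (by nlinarith) hL0.le
      have h8 := mul_le_mul_of_nonneg_left h7 hnR.le
      nlinarith
    have h7 : 1 - 1 / (k : ℝ) ^ (d + 1) + δ / 4 ≤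
        (1 - 1 / (k : ℝ) ^ (d + 1) + δ) * ((1 - τ) * (1 - τ)) := by
      have h8 : 1 - 2 * τ ≤ (1 - τ) * (1 - τ) := by nlinarith
      have h9 : (1 - 1 / (k : ℝ) ^ (d + 1) + δ) * (1 - 2 * τ) ≤
          (1 - 1 / (k : ℝ) ^ (d + 1) + δ) * ((1 - τ) * (1 - τ)) :=
        mul_le_mul_of_nonneg_left h8 (by linarith)
      have h10 : (1 - 1 / (k : ℝ) ^ (d + 1) + δ) * τ ≤ (1 + δ) * τ :=
        mul_le_mul_of_nonneg_right (by linarith) hτ0.le
      have h11 : δ * τ ≤ δ * (1 / 8) := mul_le_mul_of_nonneg_left hτ1 hδ.le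
      nlinarith
    have h8 := mul_le_mul_of_nonneg_left h7 (by positivity : (0 : ℝ) ≤ (n : ℝ) ^ 2)
    have h9 := mul_le_mul_of_nonneg_left h6
      (by linarith : (0 : ℝ) ≤ 1 - 1 / (k : ℝ) ^ (d + 1) + δ)
    linarith
  have h6 := (mul_le_mul_of_nonneg_left h2 (by positivity : (0 : ℝ) ≤ (n : ℝ) ^ 2)).trans h5
  rw [h3] at h6
  have h7 : lam d n * (((d + 2).choose 2 : ℝ) * G.card) ≤
      (1 - 1 / (k : ℝ) ^ (d + 1) + δ) * (lam d n * ((n.choose 2 : ℝ) * ((n - 2).choose d : ℝ))) := by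
    have h8 : lam d n * (((d + 2).choose 2 : ℝ) * G.card) / ((n - 2).choose d : ℝ) ≤
        (1 - 1 / (k : ℝ) ^ (d + 1) + δ) * (lam d n * (n.choose 2 : ℝ)) := by linarith
    rw [div_le_iff₀ hC0] at h8
    linarith
  rw [← h4] at h7
  have h8 : (lam d n * ((d + 2).choose 2 : ℝ)) * (G.card : ℝ) ≤
      (lam d n * ((d + 2).choose 2 : ℝ)) * ((1 - 1 / (k : ℝ) ^ (d + 1) + δ) *
        (n.choose (d + 2) : ℝ)) := by linarith
  exact le_of_mul_le_mul_left h8 (by positivity)

end Pool.Agent.N594.NT
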