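import Pool.Agent.TH200.LPn

/-!
# Norms of the degrees of pairs in `q`-graphs without a complete subgraph: statements of the parts

`q = d + 2`, `m = k (d + 1) + 1`. Averages `av` and indicators `ind` are those of `Pool.Agent.TH200.LP`.
-/

set_option autoImplicit false

open Finset
open scoped Classical

namespace Pool.Agent.N594.NT

open Pool.Agent.TH200.LP

/-- `H` holds only for sets with `d + 2` elements. -/
def Un (d : ℕ) {V : Type} (H : Finset V → Prop) : Prop := ∀ Z, H Z → Z.card = d + 2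

/-- No complete subgraph on `k (d + 1) + 1` vertices. -/
def Fr (d k : ℕ) {V : Type} (H : Finset V → Prop) : Prop :=
  ∀ φ : Fin (k * (d + 1) + 1) → V,
    ∃ J : Finset (Fin (k * (d + 1) + 1)), J.card = d + 2 ∧ ¬ H (J.image φ)

/-- The proportion of the sequences of `d` vertices which form an edge with `x` and `y`. -/
noncomputable def cdg (d : ℕ) {V : Type} [Fintype V] (H : Finset V → Prop) (x y : V) : ℝ :=
  av fun z : Fin d → V => ind (H (insert x (insert y (univ.image z))))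

/-- The graph of the pairs of almost full degree. -/
def Gr (d : ℕ) (ε : ℝ) {V : Type} [Fintype V] (H : Finset V → Prop) : V → V → Prop :=
  fun x y => 1 - ε ≤ cdg d H x y

/-- The loss at the vertex `x`. -/
noncomputable def rs (d : ℕ) {V κ : Type} [Fintype V] (H : Finset V → Prop) (π : V → κ) (x : V) : ℝ :=
  av fun y : V => ind (π x ≠ π y) * (1 - cdg d H x y)

/-- The loss. -/
noncomputable def ls (d : ℕ) {V κ : Type} [Fintype V] (H : Finset V → Prop) (π : V → κ) : ℝ :=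
  av fun x : V => rs d H π x

/-- The density of the edges inside the parts. -/
noncomputable def ein (d : ℕ) {V κ : Type} [Fintype V] (H : Finset V → Prop) (π : V → κ) : ℝ :=
  av fun e : Fin (d + 2) → V => ind (H (univ.image e) ∧ ∀ i, π (e i) = π (e 0))

/-- NT/P0: no fixed vertex. -/
def S_P0 : Prop := ∀ (d : ℕ) (V : Type) [Fintype V] [Nonempty V] (H : Finset V → Prop)
  (ι : Type) [Fintype ι] (J : Finset ι) (i j : ι) (F : V → V → ℝ), i ∈ J → j ∈ J → i ≠ j →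
  J.card = d + 2 →
  (av fun ω : ι → V => F (ω i) (ω j) * ind (¬ H (J.image ω))) =
    av fun x : V => av fun y : V => F x y * (1 - cdg d H x y)

/-- NT/P1: one fixed vertex. -/
def S_P1 : Prop := ∀ (d : ℕ) (V : Type) [Fintype V] [Nonempty V] (H : Finset V → Prop)
  (ι : Type) [Fintype ι] (J : Finset ι) (j : ι) (x : V) (F : V → ℝ), j ∈ J → J.card = d + 1 →
  (av fun ω : ι → V => F (ω j) * ind (¬ H (insert x (J.image ω)))) =
    av fun y : V => F y * (1 - cdg d H x y)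

/-- NT/P2: two fixed vertices. -/
def S_P2 : Prop := ∀ (d : ℕ) (V : Type) [Fintype V] [Nonempty V] (H : Finset V → Prop)
  (ι : Type) [Fintype ι] (J : Finset ι) (x y : V), J.card = d →
  (av fun ω : ι → V => ind (¬ H (insert x (insert y (J.image ω))))) = 1 - cdg d H x y

/-- NT/FK: few complete graphs on `k + 1` vertices. -/
def S_FK : Prop := ∀ d k : ℕ, 1 ≤ d → 1 ≤ k → ∃ C : ℝ, 0 < C ∧
  ∀ (V : Type) [Fintype V] [Nonempty V] (H : Finset V → Prop) (ε : ℝ), 0 ≤ ε → Fr d k H →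
  t (Gr d ε H) k ^ d * t (Gr d ε H) (k + 1) ≤ C * ε

/-- NT/NB: no vertex has many neighbours in all parts. -/
def S_NB : Prop := ∀ d k : ℕ, 1 ≤ d → 1 ≤ k → ∀ γ : ℝ, 0 < γ → ∃ η : ℝ, 0 < η ∧
  ∀ (V : Type) [Fintype V] [Nonempty V] (H : Finset V → Prop) (π : V → Fin k) (ε : ℝ),
  0 ≤ ε → ε ≤ η → Fr d k H → Bc (Gr d ε H) π ≤ η → ∀ x : V,
  ∃ j : Fin k, (av fun y : V => ind (π y = j ∧ Gr d ε H x y)) < γ

/-- NT/DF: few edges inside the parts. -/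
def S_DF : Prop := ∀ d k : ℕ, 1 ≤ d → 2 ≤ k → ∃ c : ℝ, 0 < c ∧
  ∀ (V : Type) [Fintype V] [Nonempty V] (H : Finset V → Prop) (π : V → Fin k), Un d H → Fr d k H →
  (∀ j, 1 / (2 * (k : ℝ)) ≤ av fun v : V => ind (π v = j)) → ls d H π ≤ c →
  c * ein d H π ≤ ls d H π

/-- NT/VH: a pair of almost full degree inside a part. -/
def S_VH : Prop := ∀ d k : ℕ, 1 ≤ d → 2 ≤ k → ∃ c : ℝ, 0 < c ∧
  ∀ (V : Type) [Fintype V] [Nonempty V] (H : Finset V → Prop) (π : V → Fin k), Un d H → Fr d k H →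
  (∀ j, 1 / (2 * (k : ℝ)) ≤ av fun v : V => ind (π v = j)) → ls d H π ≤ c →
  ∀ x y : V, π x = π y → 1 - c ≤ cdg d H x y → c ≤ rs d H π x + rs d H π y

/-- NT/MC: a partition with the smallest number of edges inside the parts. -/
def S_MC : Prop := ∀ (k : ℕ) (V : Type) [Fintype V] [Nonempty V] (G : V → V → Prop), 1 ≤ k →
  (∀ x y, G x y → G y x) → (∀ x, ¬ G x x) → ∃ π : V → Fin k, (∀ π' : V → Fin k, Bx G π ≤ Bx G π') ∧
  ∀ (x : V) (j : Fin k), (av fun y : V => ind (π y = π x ∧ G x y)) ≤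
    av fun y : V => ind (π y = j ∧ G x y)

/-- The extremal constant. -/
noncomputable def phi (d k : ℕ) (p : ℝ) : ℝ :=
  (1 - 1 / (k : ℝ)) + 1 / (k : ℝ) * (1 - 1 / (k : ℝ) ^ d) ^ p

/-- NT/OPT: equal parts are optimal. -/
def S_OPT : Prop := ∀ d k : ℕ, 1 ≤ d → 2 ≤ k → ∃ p₀ : ℝ, 1 ≤ p₀ ∧ ∀ p : ℝ, p₀ ≤ p →
  ∀ s : Fin k → ℝ, (∀ j, 1 / (2 * (k : ℝ)) ≤ s j) → ∑ j, s j = 1 →
  1 - ∑ j, s j ^ 2 + ∑ j, s j ^ 2 * (1 - s j ^ d) ^ p ≤ phi d k p

/-- NT/CAL: one-variable inequalities. -/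
def S_CAL : Prop := (∀ B b c τ p : ℝ, 0 ≤ B → 0 ≤ b → 0 ≤ c → c ≤ B + b → c ≤ 1 - τ → 0 < τ →
    τ < 1 → 1 ≤ p → c ^ p ≤ B ^ p + p * (1 - τ) ^ (p - 1) * b) ∧
  ∀ c : ℝ, 0 < c → c < 1 → ∃ p₀ : ℝ, 1 ≤ p₀ ∧ ∀ p : ℝ, p₀ ≤ p →
    (∀ u : ℝ, c ≤ u → u ≤ 1 → (1 - u) ^ p ≤ 1 / 2) ∧ p * (1 - c) ^ (p - 1) ≤ c ∧ (1 - c) ^ p ≤ c

/-- NT/MAIN: the theorem. -/
def S_MAIN : Prop := ∀ d k : ℕ, 1 ≤ d → 2 ≤ k → ∃ p₀ : ℝ, 1 ≤ p₀ ∧ ∀ p : ℝ, p₀ ≤ p →
  ∀ (V : Type) [Fintype V] [Nonempty V] (H : Finset V → Prop), Un d H → Fr d k H →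
  (av fun x : V => av fun y : V => cdg d H x y ^ p) ≤ phi d k p

end Pool.Agent.N594.NT
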